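import Pool.Agent.Lib_helper26.Ex.Weight
import Pool.Agent.Lib_helper22.CN.Dim

/-!
The ring of power series of weight zero in `k[[u, v, s, t, w_1, ..., w_m]]`, where `u, v` have
weight `1`, `s` has weight `-1`, `t` has weight `-2` and the `w_i` have weight `0`.
-/

namespace Pool.Agent.Ex26

open MvPowerSeries

section quo
variable {σ : Type*} {k : Type*} [CommRing k] {W : (σ →₀ ℕ) →+ ℤ}

open Classical in
/-- the quotient by the monomial `x^g` of the part of `f` supported in `P` -/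
noncomputable def quo (g : σ →₀ ℕ) (P : (σ →₀ ℕ) → Prop) (f : MvPowerSeries σ k) :
    MvPowerSeries σ k := fun m => if P (m + g) then coeff (m + g) f else 0

open Classical in
theorem coeff_quo (g : σ →₀ ℕ) (P : (σ →₀ ℕ) → Prop) (f : MvPowerSeries σ k) (m : σ →₀ ℕ) :
    coeff m (quo g P f) = if P (m + g) then coeff (m + g) f else 0 := rfl

open Classical in
theorem coeff_monomial_mul_quo (g : σ →₀ ℕ) (P : (σ →₀ ℕ) → Prop) (f : MvPowerSeries σ k)
    (n : σ →₀ ℕ) :
    coeff n (monomial g 1 * quo g P f) = if g ≤ n ∧ P n then coeff n f else 0 := by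
  rw [coeff_monomial_mul, one_mul]
  by_cases h : g ≤ n
  · rw [if_pos h, coeff_quo, tsub_add_cancel_of_le h]
    simp [h]
  · rw [if_neg h, if_neg (fun h2 => h h2.1)]

theorem quo_mem (g : σ →₀ ℕ) (P : (σ →₀ ℕ) → Prop) {f : MvPowerSeries σ k} {w : ℤ}
    (hf : f ∈ wt W k (w + W g)) : quo g P f ∈ wt W k w := by
  classical
  intro n hn
  rw [coeff_quo, hf _ (by rw [map_add]; exact fun h => hn (add_right_cancel h))]
  simp

/-- division with respect to finitely many monomials -/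
theorem eq_sum_quo {ι : Type*} [Fintype ι] (g : ι → (σ →₀ ℕ)) (c : (σ →₀ ℕ) → ι)
    (f : MvPowerSeries σ k) (hc : ∀ n, coeff n f ≠ 0 → g (c n) ≤ n) :
    f = ∑ i, monomial (g i) 1 * quo (g i) (fun n => c n = i) f := by
  classical
  ext n
  rw [map_sum]
  simp_rw [coeff_monomial_mul_quo]
  rw [Finset.sum_eq_single (c n)]
  · by_cases h : coeff n f = 0
    · rw [h]; simp
    · rw [if_pos ⟨hc n h, rfl⟩]
  · intro i _ hi
    rw [if_neg]
    exact fun h => hi h.2.symm
  · intro h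
    exact absurd (Finset.mem_univ _) h

end quo

/-- the variables `u, v, s, t, w_1, ..., w_m` -/
abbrev Var (m : ℕ) : Type := Fin 4 ⊕ Fin m

/-- the weight of a monomial -/
def Wt (m : ℕ) : (Var m →₀ ℕ) →+ ℤ where
  toFun n := (n (Sum.inl 0) : ℤ) + n (Sum.inl 1) - n (Sum.inl 2) - 2 * n (Sum.inl 3)
  map_zero' := by simp
  map_add' a b := by
    simp only [Finsupp.add_apply]
    push_cast
    ring

theorem Wt_apply (m : ℕ) (n : Var m →₀ ℕ) :
    Wt m n = (n (Sum.inl 0) : ℤ) + n (Sum.inl 1) - n (Sum.inl 2) - 2 * n (Sum.inl 3) := rfl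

/-- the monomials generating the maximal ideal: `us, vs, u²t, uvt, v²t, w_i` -/
noncomputable def gen (m : ℕ) : Fin 5 ⊕ Fin m → (Var m →₀ ℕ)
  | Sum.inl i => ![Finsupp.single (Sum.inl 0) 1 + Finsupp.single (Sum.inl 2) 1,
      Finsupp.single (Sum.inl 1) 1 + Finsupp.single (Sum.inl 2) 1,
      Finsupp.single (Sum.inl 0) 2 + Finsupp.single (Sum.inl 3) 1,
      Finsupp.single (Sum.inl 0) 1 + Finsupp.single (Sum.inl 1) 1 + Finsupp.single (Sum.inl 3) 1,
      Finsupp.single (Sum.inl 1) 2 + Finsupp.single (Sum.inl 3) 1] i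
  | Sum.inr i => Finsupp.single (Sum.inr i) 1

theorem Wt_gen (m : ℕ) (i : Fin 5 ⊕ Fin m) : Wt m (gen m i) = 0 := by
  rcases i with i | i
  · fin_cases i <;> simp [gen, Wt_apply, Finsupp.single_apply]
  · simp [gen, Wt_apply, Finsupp.single_apply]

theorem le_iff_var (m : ℕ) (a b : Var m →₀ ℕ) : a ≤ b ↔ (∀ i : Fin 4, a (Sum.inl i) ≤ b (Sum.inl i)) ∧
    ∀ i : Fin m, a (Sum.inr i) ≤ b (Sum.inr i) := by
  rw [Finsupp.le_def]
  constructor
  · intro h
    exact ⟨fun i => h _, fun i => h _⟩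
  · rintro ⟨h1, h2⟩ (i | i)
    · exact h1 i
    · exact h2 i

/-- every nontrivial monomial of weight zero is divisible by a generator -/
theorem exists_gen_le (m : ℕ) (n : Var m →₀ ℕ) (hn : n ≠ 0) (hw : Wt m n = 0) :
    ∃ i, gen m i ≤ n := by
  by_cases h : ∃ j : Fin m, n (Sum.inr j) ≠ 0
  · obtain ⟨j, hj⟩ := h
    refine ⟨Sum.inr j, ?_⟩
    rw [gen, Finsupp.single_le_iff]
    omega
  push Not at h
  rw [Wt_apply] at hw
  have key : ∀ i : Fin 5, (∀ j : Fin 4, gen m (Sum.inl i) (Sum.inl j) ≤ n (Sum.inl j)) →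
      gen m (Sum.inl i) ≤ n := by
    intro i hi
    rw [le_iff_var]
    refine ⟨hi, fun j => ?_⟩
    have : gen m (Sum.inl i) (Sum.inr j) = 0 := by
      fin_cases i <;> simp [gen, Finsupp.single_apply]
    omega
  have hne : n (Sum.inl 0) ≠ 0 ∨ n (Sum.inl 1) ≠ 0 ∨ n (Sum.inl 2) ≠ 0 ∨ n (Sum.inl 3) ≠ 0 := by
    by_contra hc
    push Not at hc
    apply hn
    ext (i | i)
    · fin_cases i
      · exact hc.1
      · exact hc.2.1
      · exact hc.2.2.1
      · exact hc.2.2.2
    · exact h i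
  by_cases hs : n (Sum.inl 2) = 0
  · -- no s: use t
    by_cases hu : n (Sum.inl 0) = 0
    · refine ⟨Sum.inl 4, key 4 ?_⟩
      rw [Fin.forall_fin_succ, Fin.forall_fin_succ, Fin.forall_fin_succ, Fin.forall_fin_succ]
      simp [gen, Finsupp.single_apply]
      omega
    · by_cases hv : n (Sum.inl 1) = 0
      · refine ⟨Sum.inl 2, key 2 ?_⟩
        rw [Fin.forall_fin_succ, Fin.forall_fin_succ, Fin.forall_fin_succ, Fin.forall_fin_succ]
        simp [gen, Finsupp.single_apply]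
        omega
      · refine ⟨Sum.inl 3, key 3 ?_⟩
        rw [Fin.forall_fin_succ, Fin.forall_fin_succ, Fin.forall_fin_succ, Fin.forall_fin_succ]
        simp [gen, Finsupp.single_apply]
        omega
  · by_cases hu : n (Sum.inl 0) = 0
    · refine ⟨Sum.inl 1, key 1 ?_⟩
      rw [Fin.forall_fin_succ, Fin.forall_fin_succ, Fin.forall_fin_succ, Fin.forall_fin_succ]
      simp [gen, Finsupp.single_apply]
      omega
    · refine ⟨Sum.inl 0, key 0 ?_⟩
      rw [Fin.forall_fin_succ, Fin.forall_fin_succ, Fin.forall_fin_succ, Fin.forall_fin_succ]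
      simp [gen, Finsupp.single_apply]
      omega

end Pool.Agent.Ex26
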