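import Pool.Agent.Lib_helper26.Ex.Indep

/-!
`1, vs, uvt` is a basis of the example ring over its Noether normalisation; the module of series
of weight one has the basis `u, v, v² s`.
-/

namespace Pool.Agent.Ex26

open MvPowerSeries IsLocalRing

variable {m : ℕ} {k : Type*} [Field k]

section
variable {F : MvPowerSeries (Fin (m + 3)) k →+* Rg m k}

theorem par_one_ne_zero : (par 1 : Rg m k) ≠ 0 := by
  classical
  rw [par_one]
  intro h
  have h1 : (gR (Sum.inl 2) : Rg m k) = gR (Sum.inl 1) := sub_eq_zero.mp h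
  have h2 := congrArg (fun r : Rg m k => coeff (gen m (Sum.inl 2)) (r : MvPowerSeries (Var m) k)) h1
  simp only [gR_val] at h2
  rw [coeff_monomial, coeff_monomial, if_pos rfl, if_neg] at h2
  · exact one_ne_zero h2
  · intro h3
    have h4 := congrArg (fun g => g (Sum.inl 3)) h3
    simp [gen] at h4

theorem X_dvd_of_rel (hC : ∀ a, F (C a) = algebraMap k (Rg m k) a)
    (hX : ∀ i, F (X i) = par i) (a b c : MvPowerSeries (Fin (m + 3)) k)
    (h : F a + F b * gR (Sum.inl 1) + F c * gR (Sum.inl 3) = 0) :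
    X 1 ∣ a ∧ X 1 ∣ b ∧ X 1 ∣ c := by
  classical
  have hG : GG F a + GG F b * psi m k (gR (Sum.inl 1) : Rg m k) +
      GG F c * psi m k (gR (Sum.inl 3) : Rg m k) = 0 := by
    have h1 := congrArg (fun r : Rg m k => psi m k (r : MvPowerSeries (Var m) k)) h
    have h2 : ∀ r s : Rg m k, ((r * s : Rg m k) : MvPowerSeries (Var m) k) = r * s := fun _ _ => rfl
    have h3 : ∀ r s : Rg m k, ((r + s : Rg m k) : MvPowerSeries (Var m) k) = r + s := fun _ _ => rfl
    simp only [h2, h3, map_add, map_mul] at h1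
    rw [show ((0 : Rg m k) : MvPowerSeries (Var m) k) = 0 from rfl, map_zero] at h1
    exact h1
  rw [psi_g1, psi_g3] at hG
  have key := fun e => congrArg (fun f => coeff e f) hG
  simp only [map_add, coeff_mul_monomial, mul_one, map_zero] at key
  refine ⟨?_, ?_, ?_⟩
  · rw [X_dvd_iff]
    intro d hd
    have h1 := key (theta d)
    rw [coeff_GG_theta hC hX a d hd] at h1
    have h2 : (if (Finsupp.single (Sum.inl 0) 2 + Finsupp.single (Sum.inl 1) 1 +
      Finsupp.single (Sum.inl 2) 1 : (Fin 3 ⊕ Fin m) →₀ ℕ) ≤ theta d then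
        coeff (theta d - (Finsupp.single (Sum.inl 0) 2 + Finsupp.single (Sum.inl 1) 1 +
      Finsupp.single (Sum.inl 2) 1)) (GG F b) else 0) = 0 := by
      split_ifs with hle
      · apply coeff_GG_eq_zero hC hX
        have h3 := hle (Sum.inl 0)
        simp [theta_0] at h3 ⊢
        omega
      · rfl
    have h3 : (if (Finsupp.single (Sum.inl 0) 1 + Finsupp.single (Sum.inl 1) 2 +
      Finsupp.single (Sum.inl 2) 1 : (Fin 3 ⊕ Fin m) →₀ ℕ) ≤ theta d then
        coeff (theta d - (Finsupp.single (Sum.inl 0) 1 + Finsupp.single (Sum.inl 1) 2 +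
      Finsupp.single (Sum.inl 2) 1)) (GG F c) else 0) = 0 := by
      split_ifs with hle
      · apply coeff_GG_eq_zero hC hX
        have h3 := hle (Sum.inl 0)
        simp [theta_0] at h3 ⊢
        omega
      · rfl
    rw [h2, h3, add_zero, add_zero] at h1
    exact h1
  · rw [X_dvd_iff]
    intro d hd
    have h1 := key (theta d + (Finsupp.single (Sum.inl 0) 2 + Finsupp.single (Sum.inl 1) 1 +
      Finsupp.single (Sum.inl 2) 1))
    rw [coeff_GG_eq_zero hC hX a _ (by simp [theta_0]; omega), if_pos le_add_self,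
      add_tsub_cancel_right, coeff_GG_theta hC hX b d hd] at h1
    have h3 : (if (Finsupp.single (Sum.inl 0) 1 + Finsupp.single (Sum.inl 1) 2 +
      Finsupp.single (Sum.inl 2) 1 : (Fin 3 ⊕ Fin m) →₀ ℕ) ≤
        theta d + (Finsupp.single (Sum.inl 0) 2 + Finsupp.single (Sum.inl 1) 1 +
      Finsupp.single (Sum.inl 2) 1) then
        coeff (theta d + (Finsupp.single (Sum.inl 0) 2 + Finsupp.single (Sum.inl 1) 1 +
      Finsupp.single (Sum.inl 2) 1) - (Finsupp.single (Sum.inl 0) 1 + Finsupp.single (Sum.inl 1) 2 +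
      Finsupp.single (Sum.inl 2) 1)) (GG F c) else 0) = 0 := by
      split_ifs with hle
      · apply coeff_GG_eq_zero hC hX
        have h3 := hle (Sum.inl 0)
        simp [theta_0] at h3 ⊢
        omega
      · rfl
    rw [h3, add_zero, zero_add] at h1
    exact h1
  · rw [X_dvd_iff]
    intro d hd
    have h1 := key (theta d + (Finsupp.single (Sum.inl 0) 1 + Finsupp.single (Sum.inl 1) 2 +
      Finsupp.single (Sum.inl 2) 1))
    rw [coeff_GG_eq_zero hC hX a _ (by simp [theta_0]; omega), if_pos (le_add_self (b := theta d)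
      (a := (Finsupp.single (Sum.inl 0) 1 + Finsupp.single (Sum.inl 1) 2 +
      Finsupp.single (Sum.inl 2) 1 : (Fin 3 ⊕ Fin m) →₀ ℕ))),
      add_tsub_cancel_right, coeff_GG_theta hC hX c d hd] at h1
    have h3 : (if (Finsupp.single (Sum.inl 0) 2 + Finsupp.single (Sum.inl 1) 1 +
      Finsupp.single (Sum.inl 2) 1 : (Fin 3 ⊕ Fin m) →₀ ℕ) ≤
        theta d + (Finsupp.single (Sum.inl 0) 1 + Finsupp.single (Sum.inl 1) 2 +
      Finsupp.single (Sum.inl 2) 1) then
        coeff (theta d + (Finsupp.single (Sum.inl 0) 1 + Finsupp.single (Sum.inl 1) 2 +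
      Finsupp.single (Sum.inl 2) 1) - (Finsupp.single (Sum.inl 0) 2 + Finsupp.single (Sum.inl 1) 1 +
      Finsupp.single (Sum.inl 2) 1)) (GG F b) else 0) = 0 := by
      split_ifs with hle
      · apply coeff_GG_eq_zero hC hX
        have h3 := hle (Sum.inl 0)
        simp [theta_0] at h3 ⊢
        omega
      · rfl
    rw [h3, add_zero, zero_add] at h1
    exact h1

theorem X_pow_dvd_of_rel (hC : ∀ a, F (C a) = algebraMap k (Rg m k) a)
    (hX : ∀ i, F (X i) = par i) (n : ℕ) (a b c : MvPowerSeries (Fin (m + 3)) k)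
    (h : F a + F b * gR (Sum.inl 1) + F c * gR (Sum.inl 3) = 0) :
    X 1 ^ n ∣ a ∧ X 1 ^ n ∣ b ∧ X 1 ^ n ∣ c := by
  induction n generalizing a b c with
  | zero => simp
  | succ n ih =>
    obtain ⟨⟨a', rfl⟩, ⟨b', rfl⟩, ⟨c', rfl⟩⟩ := X_dvd_of_rel hC hX a b c h
    have h1 : par 1 * (F a' + F b' * gR (Sum.inl 1) + F c' * gR (Sum.inl 3)) = 0 := by
      rw [← hX, ← h]
      simp only [map_mul]
      ring
    rcases mul_eq_zero.mp h1 with h2 | h2
    · exact absurd h2 par_one_ne_zero
    · obtain ⟨h3, h4, h5⟩ := ih a' b' c' h2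
      rw [pow_succ']
      exact ⟨mul_dvd_mul_left _ h3, mul_dvd_mul_left _ h4, mul_dvd_mul_left _ h5⟩

theorem indep (hC : ∀ a, F (C a) = algebraMap k (Rg m k) a)
    (hX : ∀ i, F (X i) = par i) (a b c : MvPowerSeries (Fin (m + 3)) k)
    (h : F a + F b * gR (Sum.inl 1) + F c * gR (Sum.inl 3) = 0) :
    a = 0 ∧ b = 0 ∧ c = 0 := by
  have key : ∀ f : MvPowerSeries (Fin (m + 3)) k, (∀ n, X 1 ^ n ∣ f) → f = 0 := by
    intro f hf
    ext d
    exact (X_pow_dvd_iff.mp (hf (d 1 + 1))) d (by omega)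
  exact ⟨key a fun n => (X_pow_dvd_of_rel hC hX n a b c h).1,
    key b fun n => (X_pow_dvd_of_rel hC hX n a b c h).2.1,
    key c fun n => (X_pow_dvd_of_rel hC hX n a b c h).2.2⟩

theorem F_injective (hC : ∀ a, F (C a) = algebraMap k (Rg m k) a)
    (hX : ∀ i, F (X i) = par i) : Function.Injective F := by
  rw [injective_iff_map_eq_zero]
  intro a ha
  exact (indep hC hX a 0 0 (by rw [ha, map_zero, zero_mul, zero_mul, add_zero, add_zero])).1

theorem spanning (hC : ∀ a, F (C a) = algebraMap k (Rg m k) a)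
    (hX : ∀ i, F (X i) = par i) (hF : F.Finite) (r : Rg m k) :
    ∃ a b c : MvPowerSeries (Fin (m + 3)) k,
      r = F a + F b * gR (Sum.inl 1) + F c * gR (Sum.inl 3) := by
  classical
  let _ : Algebra (MvPowerSeries (Fin (m + 3)) k) (Rg m k) := F.toAlgebra
  have hfin : Module.Finite (MvPowerSeries (Fin (m + 3)) k) (Rg m k) := hF
  let A := MvPowerSeries (Fin (m + 3)) k
  let N : Submodule A (Rg m k) := Submodule.span A {1, gR (Sum.inl 1), gR (Sum.inl 3)}
  have hsm : ∀ (a : A) (r : Rg m k), a • r = F a * r := fun a r => rfl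
  -- the image of the maximal ideal
  have hP : ∀ x ∈ Ideal.span (Set.range (par : Fin (m + 3) → Rg m k)),
      x ∈ (maximalIdeal A • ⊤ : Submodule A (Rg m k)) := by
    intro x hx
    rw [Ideal.smul_top_eq_map]
    change x ∈ Ideal.map (algebraMap A (Rg m k)) (maximalIdeal A)
    refine (Ideal.span_le.mpr ?_) hx
    rintro _ ⟨i, rfl⟩
    rw [← hX]
    apply Ideal.mem_map_of_mem (algebraMap A (Rg m k))
    rw [mem_maximalIdeal, mem_nonunits_iff, MvPowerSeries.isUnit_iff_constantCoeff,
      constantCoeff_X]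
    exact not_isUnit_zero
  have h1 : ∀ c : k, ∀ x ∈ N, algebraMap k (Rg m k) c * x ∈ N := by
    intro c x hx
    rw [← hC]
    exact N.smul_mem (C c : A) hx
  have hg : ∀ i : Fin 5 ⊕ Fin m, (gR i : Rg m k) ∈ N ⊔ (maximalIdeal A • ⊤ : Submodule A (Rg m k)) := by
    have hr : ∀ x ∈ Ideal.span (Set.range (par : Fin (m + 3) → Rg m k)),
      x ∈ N ⊔ (maximalIdeal A • ⊤ : Submodule A (Rg m k)) := fun x hx =>
        Submodule.mem_sup_right (hP x hx)
    have hN1 : (gR (Sum.inl 1) : Rg m k) ∈ N ⊔ (maximalIdeal A • ⊤ : Submodule A (Rg m k)) :=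
      Submodule.mem_sup_left (Submodule.subset_span (by simp))
    have hN3 : (gR (Sum.inl 3) : Rg m k) ∈ N ⊔ (maximalIdeal A • ⊤ : Submodule A (Rg m k)) :=
      Submodule.mem_sup_left (Submodule.subset_span (by simp))
    intro i
    rcases i with i | i
    · fin_cases i
      · exact hr _ g0_mem
      · exact hN1
      · have := Submodule.add_mem _ (hr _ g21_mem) hN1
        rw [sub_add_cancel] at this
        exact this
      · exact hN3
      · exact hr _ g4_mem
    · exact hr _ (gr_mem i)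
  have htop : (⊤ : Submodule A (Rg m k)) ≤ N ⊔ maximalIdeal A • ⊤ := by
    intro r _
    have hr0 : constantCoeff ((r - algebraMap k (Rg m k)
        (constantCoeff (r : MvPowerSeries (Var m) k)) : Rg m k) : MvPowerSeries (Var m) k) = 0 := by
      have h : ((r - algebraMap k (Rg m k) (constantCoeff (r : MvPowerSeries (Var m) k)) : Rg m k) :
        MvPowerSeries (Var m) k) = (r : MvPowerSeries (Var m) k) -
          C (constantCoeff (r : MvPowerSeries (Var m) k)) := rfl
      rw [h, map_sub, constantCoeff_C, sub_self]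
    obtain ⟨q, hq, -⟩ := exists_sum_gR _ hr0
    have h2 : r = algebraMap k (Rg m k) (constantCoeff (r : MvPowerSeries (Var m) k)) +
      ∑ i, gR i * q i := by rw [← hq]; ring
    rw [h2]
    refine Submodule.add_mem _ (Submodule.mem_sup_left ?_) (Submodule.sum_mem _ fun i _ => ?_)
    · have := h1 (constantCoeff (r : MvPowerSeries (Var m) k)) 1 (Submodule.subset_span (by simp))
      rwa [mul_one] at this
    · have h3 : gR i * q i = (C (constantCoeff (q i : MvPowerSeries (Var m) k)) : A) • gR i +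
        gR i * (q i - algebraMap k (Rg m k) (constantCoeff (q i : MvPowerSeries (Var m) k))) := by
        rw [hsm, hC]; ring
      rw [h3]
      refine Submodule.add_mem _ (Submodule.smul_mem _ _ (hg i)) (Submodule.mem_sup_right (hP _ ?_))
      apply maximalIdeal_sq_le
      rw [pow_two]
      refine Ideal.mul_mem_mul (gR_mem_maximalIdeal i) ?_
      rw [mem_maximalIdeal_R0]
      have h : ((q i - algebraMap k (Rg m k) (constantCoeff (q i : MvPowerSeries (Var m) k)) :
        Rg m k) : MvPowerSeries (Var m) k) = (q i : MvPowerSeries (Var m) k) -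
          C (constantCoeff (q i : MvPowerSeries (Var m) k)) := rfl
      rw [h, map_sub, constantCoeff_C, sub_self]
  have hN : (⊤ : Submodule A (Rg m k)) ≤ N := by
    refine Submodule.le_of_le_smul_of_le_jacobson_bot hfin.fg_top ?_ htop
    exact IsLocalRing.maximalIdeal_le_jacobson _
  have hr := hN (Submodule.mem_top (x := r))
  rw [Submodule.mem_span_insert] at hr
  obtain ⟨a, z, hz, hr⟩ := hr
  rw [Submodule.mem_span_pair] at hz
  obtain ⟨b, c, hbc⟩ := hz
  refine ⟨a, b, c, ?_⟩
  rw [hr, ← hbc, hsm, hsm, hsm]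
  ring

end

end Pool.Agent.Ex26
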