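import Pool.Agent.WFT.Defs

/-!
The dual of a cubic algebra with `c = 0` (abstract version).
-/

namespace Pool.Agent.Ex26

open Pool.Agent

theorem isDual_abs {A R : Type*} [CommRing A] [IsDomain A] [CommRing R] [Algebra A R]
    (x0 x1 x2 : A) (hx0 : x0 ≠ 0) (p q : R) (b : Module.Basis (Fin 3) A R)
    (hb0 : b 0 = 1) (hb1 : b 1 = p) (hb2 : b 2 = q)
    (h11 : p * p = algebraMap A R x0 * q - algebraMap A R x1 * p)
    (h13 : p * q = algebraMap A R x0 * algebraMap A R x2)
    (h33 : q * q = algebraMap A R x2 * p + algebraMap A R x1 * algebraMap A R x2) :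
    WFT.IsDual A R (Ideal.span {algebraMap A R x0, p} : Ideal R) := by
  set F := algebraMap A R with hFdef
  have hsm : ∀ (a : A) (r : R), a • r = F a * r := fun a r => Algebra.smul_def a r
  have hspan : ∀ r : R, r = F (b.repr r 0) + F (b.repr r 1) * p + F (b.repr r 2) * q := by
    intro r
    conv_lhs => rw [← b.sum_repr r, Fin.sum_univ_three, hb0, hb1, hb2, hsm, hsm, hsm, mul_one]
  have hindep : ∀ a c e : A, F a + F c * p + F e * q = 0 → a = 0 ∧ c = 0 ∧ e = 0 := by
    intro a c e h
    have h1 : ∑ i, (![a, c, e] : Fin 3 → A) i • b i = 0 := by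
      rw [Fin.sum_univ_three, hb0, hb1, hb2, hsm, hsm, hsm]
      simpa using h
    have h2 := Fintype.linearIndependent_iff.mp b.linearIndependent _ h1
    exact ⟨h2 0, h2 1, h2 2⟩
  let δ0 : (R →ₗ[A] A) → R := fun l =>
    F (l q) * F x0 + F (l p + x1 * l 1) * p + F (l 1) * (p * p)
  have hδ0 : ∀ l, δ0 l = F (l q) * F x0 + F (l p + x1 * l 1) * p + F (l 1) * (p * p) := fun l => rfl
  have hI0 : F x0 ∈ Ideal.span {F x0, p} := Ideal.subset_span (by simp)
  have hI1 : p ∈ Ideal.span {F x0, p} := Ideal.subset_span (by simp)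
  have hmem : ∀ l, δ0 l ∈ Ideal.span {F x0, p} := by
    intro l
    rw [hδ0]
    exact Ideal.add_mem _ (Ideal.add_mem _ (Ideal.mul_mem_left _ _ hI0)
      (Ideal.mul_mem_left _ _ hI1)) (Ideal.mul_mem_left _ _ (Ideal.mul_mem_left _ _ hI1))
  have hlin : ∀ (l : R →ₗ[A] A) (a : A) (r : R), l (F a * r) = a * l r := by
    intro l a r
    rw [← hsm, map_smul, smul_eq_mul]
  have hlin1 : ∀ (l : R →ₗ[A] A) (a : A), l (F a) = a * l 1 := by
    intro l a
    rw [← hlin, mul_one]
  have hR : ∀ (t : R) (l : R →ₗ[A] A), δ0 (l ∘ₗ LinearMap.mulLeft A t) = t * δ0 l := by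
    intro t l
    obtain ⟨a, b', c, rfl⟩ : ∃ a b' c, t = F a + F b' * p + F c * q := ⟨_, _, _, hspan t⟩
    have e1 : (l ∘ₗ LinearMap.mulLeft A (F a + F b' * p + F c * q)) 1 =
        a * l 1 + b' * l p + c * l q := by
      rw [LinearMap.comp_apply, LinearMap.mulLeft_apply, mul_one, map_add, map_add, hlin1, hlin,
        hlin]
    have e2 : (l ∘ₗ LinearMap.mulLeft A (F a + F b' * p + F c * q)) p =
        a * l p + b' * (x0 * l q - x1 * l p) + c * (x0 * x2 * l 1) := by
      have h1 : (F a + F b' * p + F c * q) * p =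
        F a * p + F b' * (F x0 * q - F x1 * p) + F c * F (x0 * x2) := by
        rw [← h11, map_mul, ← h13]; ring
      rw [LinearMap.comp_apply, LinearMap.mulLeft_apply, h1, map_add, map_add, hlin, hlin,
        map_sub, hlin, hlin, hlin, hlin1]
    have e3 : (l ∘ₗ LinearMap.mulLeft A (F a + F b' * p + F c * q)) q =
        a * l q + b' * (x0 * x2 * l 1) + c * (x2 * l p + x1 * x2 * l 1) := by
      have h1 : (F a + F b' * p + F c * q) * q =
        F a * q + F b' * F (x0 * x2) + F c * (F x2 * p + F (x1 * x2)) := by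
        rw [map_mul, map_mul, ← h33, ← h13]; ring
      rw [LinearMap.comp_apply, LinearMap.mulLeft_apply, h1, map_add, map_add, hlin, hlin,
        hlin, map_add, hlin, hlin1, hlin1]
    rw [hδ0, hδ0, e1, e2, e3]
    simp only [map_add, map_mul, map_sub]
    rw [h11]
    linear_combination (-(F b' * F x0 * F (l 1)) - F c * F (l p)) * h13 - F b' * F (l p) * h11 -
      F x0 * F (l 1) * F c * h33
  have hadd : ∀ l l', δ0 (l + l') = δ0 l + δ0 l' := by
    intro l l'
    rw [hδ0, hδ0, hδ0]
    simp only [LinearMap.add_apply, map_add, mul_add, map_mul]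
    ring
  have hexp : ∀ l, δ0 l = F (l q * x0) + F (l p) * p + F (l 1 * x0) * q := by
    intro l
    rw [hδ0, h11]
    simp only [map_add, map_mul]
    ring
  have hinj : ∀ l, δ0 l = 0 → l = 0 := by
    intro l hl
    rw [hexp] at hl
    obtain ⟨h1, h2, h3⟩ := hindep _ _ _ hl
    apply b.ext
    intro i
    fin_cases i
    · change l (b 0) = 0
      rw [hb0]
      exact (mul_eq_zero.mp h3).resolve_right hx0
    · change l (b 1) = 0
      rw [hb1]
      exact h2
    · change l (b 2) = 0
      rw [hb2]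
      exact (mul_eq_zero.mp h1).resolve_right hx0
  have hsurj : ∀ w ∈ Ideal.span {F x0, p}, ∃ l, δ0 l = w := by
    intro w hw
    rw [Ideal.mem_span_pair] at hw
    obtain ⟨r, s, rfl⟩ := hw
    obtain ⟨a, c, e, rfl⟩ : ∃ a b' c, r = F a + F b' * p + F c * q := ⟨_, _, _, hspan r⟩
    obtain ⟨a', c', e', rfl⟩ : ∃ a b' c, s = F a + F b' * p + F c * q := ⟨_, _, _, hspan s⟩
    -- coordinates
    let l : R →ₗ[A] A := b.constr A (![e + c', c * x0 + a' - c' * x1, a + e' * x2] : Fin 3 → A)
    have l0 : l 1 = e + c' := by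
      rw [← hb0, Module.Basis.constr_basis]; rfl
    have l1 : l p = c * x0 + a' - c' * x1 := by
      rw [← hb1, Module.Basis.constr_basis]; rfl
    have l2 : l q = a + e' * x2 := by
      rw [← hb2, Module.Basis.constr_basis]; rfl
    refine ⟨l, ?_⟩
    rw [hexp, l0, l1, l2]
    simp only [map_add, map_mul, map_sub]
    linear_combination (-F c') * h11 - F e' * h13
  let δ : (R →ₗ[A] A) →+ (Ideal.span {F x0, p} : Ideal R) :=
    { toFun := fun l => ⟨δ0 l, hmem l⟩
      map_zero' := by
        apply Subtype.ext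
        change δ0 0 = 0
        rw [hδ0]
        simp
      map_add' := by
        intro l l'
        apply Subtype.ext
        exact hadd l l' }
  have hδbij : Function.Bijective δ := by
    constructor
    · rw [injective_iff_map_eq_zero]
      intro l hl
      exact hinj l (congrArg Subtype.val hl)
    · rintro ⟨w, hw⟩
      obtain ⟨l, hl⟩ := hsurj w hw
      exact ⟨l, Subtype.ext hl⟩
  let E := AddEquiv.ofBijective δ hδbij
  refine ⟨E.symm, ?_⟩
  intro t w x
  obtain ⟨l, rfl⟩ := E.surjective w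
  rw [AddEquiv.symm_apply_apply]
  have h1 : t • E l = E (l ∘ₗ LinearMap.mulLeft A t) := by
    apply Subtype.ext
    exact (hR t l).symm
  rw [h1, AddEquiv.symm_apply_apply]
  rfl

end Pool.Agent.Ex26
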