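import Pool.Agent.WFT.Defs

/-!
Non-principality of the powers of the class of an ideal `(g0, g1)` (abstract version).
-/

namespace Pool.Agent.Ex26

open Pool.Agent

theorem not_prinPow_abs {R K : Type*} [CommRing R] [IsDomain R] [Field K] [Algebra R K]
    [IsFractionRing R K] (g0 g1 g2 g3 : R) (hg0 : g0 ≠ 0) (h12 : g1 * g2 = g0 * g3)
    (n : ℕ) (H1 : ¬ g0 ^ n ∣ g2 ^ n)
    (H2 : ∀ ρ : R, ρ ∣ g0 ^ n → ρ ∣ g1 ^ n → IsUnit ρ) :
    ¬ WFT.PrinPow (IsLocalization.coeSubmodule K (Ideal.span {g0, g1})) n := by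
  rintro ⟨c, hc⟩
  set J : Submodule R K := IsLocalization.coeSubmodule K (Ideal.span {g0, g1}) with hJ
  have hinj : Function.Injective (algebraMap R K) := IsFractionRing.injective R K
  have hJ1 : J ≤ 1 := by
    rintro _ ⟨x, -, rfl⟩
    exact Submodule.mem_one.mpr ⟨x, rfl⟩
  have hJn1 : J ^ n ≤ 1 := by
    calc J ^ n ≤ 1 ^ n := pow_le_pow_left' hJ1 n
      _ = 1 := one_pow n
  have hmem0 : algebraMap R K g0 ∈ J := ⟨g0, Ideal.subset_span (by simp), rfl⟩
  have hmem1 : algebraMap R K g1 ∈ J := ⟨g1, Ideal.subset_span (by simp), rfl⟩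
  have hone : (1 : K) ∈ (1 : Submodule R K) / J ^ n := by
    rw [Submodule.mem_div_iff_forall_mul_mem]
    intro y hy
    rw [one_mul]
    exact hJn1 hy
  rw [hc, Submodule.mem_span_singleton] at hone
  obtain ⟨ρ, hρ⟩ := hone
  rw [Algebra.smul_def] at hρ
  have hcmem : c ∈ (1 : Submodule R K) / J ^ n := by
    rw [hc]; exact Submodule.mem_span_singleton_self c
  have hdiv : ∀ g : R, algebraMap R K g ∈ J → ρ ∣ g ^ n := by
    intro g hg
    rw [Submodule.mem_div_iff_forall_mul_mem] at hcmem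
    have h1 := hcmem _ (Submodule.pow_mem_pow J hg n)
    rw [Submodule.mem_one] at h1
    obtain ⟨r, hr⟩ := h1
    refine ⟨r, ?_⟩
    apply hinj
    rw [map_mul, hr, ← mul_assoc, hρ, one_mul, map_pow]
  have hunit := H2 ρ (hdiv g0 hmem0) (hdiv g1 hmem1)
  -- c lies in R
  obtain ⟨σ, hσ⟩ := hunit.exists_right_inv
  have hcR : c = algebraMap R K σ := by
    have h1 : algebraMap R K ρ * algebraMap R K σ = 1 := by rw [← map_mul, hσ, map_one]
    calc c = (algebraMap R K ρ * algebraMap R K σ) * c := by rw [h1, one_mul]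
      _ = algebraMap R K σ * (algebraMap R K ρ * c) := by ring
      _ = algebraMap R K σ := by rw [hρ, mul_one]
  have hle : (1 : Submodule R K) / J ^ n ≤ 1 := by
    rw [hc, Submodule.span_singleton_le_iff_mem, hcR]
    exact Submodule.mem_one.mpr ⟨σ, rfl⟩
  have hg0K : algebraMap R K g0 ≠ 0 := by
    intro h
    apply hg0
    apply hinj
    rw [h, map_zero]
  -- the element z
  set z : K := algebraMap R K g2 / algebraMap R K g0 with hz
  have hz0 : z * algebraMap R K g0 = algebraMap R K g2 := div_mul_cancel₀ _ hg0K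
  have hz1 : z * algebraMap R K g1 = algebraMap R K g3 := by
    rw [hz, div_mul_eq_mul_div, div_eq_iff hg0K, ← map_mul, ← map_mul]
    congr 1
    rw [mul_comm g2 g1, h12]
    ring
  have hzJ : Submodule.span R {z} * J ≤ 1 := by
    rw [Submodule.mul_le]
    intro x hx y hy
    rw [Submodule.mem_span_singleton] at hx
    obtain ⟨a, rfl⟩ := hx
    obtain ⟨w, hw, rfl⟩ := hy
    rw [SetLike.mem_coe, Ideal.mem_span_pair] at hw
    obtain ⟨r, s, rfl⟩ := hw
    rw [Submodule.mem_one]
    refine ⟨a * (r * g2 + s * g3), ?_⟩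
    rw [Algebra.smul_def]
    change _ = algebraMap R K a * z * algebraMap R K (r * g0 + s * g1)
    simp only [map_add, map_mul]
    rw [← hz0, ← hz1]
    ring
  have hzn : z ^ n ∈ (1 : Submodule R K) / J ^ n := by
    rw [Submodule.mem_div_iff_forall_mul_mem]
    intro y hy
    have h1 : z ^ n * y ∈ Submodule.span R {z} ^ n * J ^ n :=
      Submodule.mul_mem_mul (Submodule.pow_mem_pow _ (Submodule.mem_span_singleton_self z) n) hy
    rw [← mul_pow] at h1
    have h2 : (Submodule.span R {z} * J) ^ n ≤ 1 := by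
      calc (Submodule.span R {z} * J) ^ n ≤ 1 ^ n := pow_le_pow_left' hzJ n
        _ = 1 := one_pow n
    exact h2 h1
  have h3 := hle hzn
  rw [Submodule.mem_one] at h3
  obtain ⟨r, hr⟩ := h3
  apply H1
  refine ⟨r, ?_⟩
  apply hinj
  rw [map_mul, hr, map_pow, map_pow, ← mul_pow, mul_comm, hz0]

end Pool.Agent.Ex26
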