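import Pool.Agent.WFT.Defs

/-!
Transport of the dual along an isomorphism.
-/

namespace Pool.Agent.Ex26

open Pool.Agent

theorem isDual_transport {A R T : Type*} [CommRing A] [CommRing R] [CommRing T] [Algebra A R]
    [Algebra A T] [Algebra R T] [IsScalarTower A R T] (hb : Function.Bijective (algebraMap R T))
    (I : Ideal R) (h : WFT.IsDual A R I) : WFT.IsDual A T (I.map (algebraMap R T)) := by
  obtain ⟨ε, hε⟩ := h
  let e : R ≃+* T := RingEquiv.ofBijective (algebraMap R T) hb
  have he : ∀ r, e r = algebraMap R T r := fun r => rfl
  let f : I →+ (I.map (algebraMap R T)) :=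
    { toFun := fun x => ⟨algebraMap R T x, Ideal.mem_map_of_mem _ x.2⟩
      map_zero' := by
        apply Subtype.ext
        change algebraMap R T 0 = 0
        exact map_zero _
      map_add' := by
        intro x y
        apply Subtype.ext
        change algebraMap R T (x + y) = algebraMap R T x + algebraMap R T y
        exact map_add _ _ _ }
  have hf : ∀ x, ((f x : I.map (algebraMap R T)) : T) = algebraMap R T x := fun x => rfl
  have hfb : Function.Bijective f := by
    constructor
    · intro x y hxy
      have := congrArg Subtype.val hxy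
      rw [hf, hf] at this
      exact Subtype.ext (hb.1 this)
    · rintro ⟨w, hw⟩
      obtain ⟨x, hx, hxw⟩ := (Ideal.mem_map_iff_of_surjective _ hb.2).mp hw
      exact ⟨⟨x, hx⟩, Subtype.ext hxw⟩
  let E := AddEquiv.ofBijective f hfb
  have hE : ∀ x, E x = f x := fun x => rfl
  -- the transported functionals
  have hesm : ∀ (a : A) (x : T), e.symm (a • x) = a • e.symm x := by
    intro a x
    apply e.injective
    rw [RingEquiv.apply_symm_apply, he, Algebra.smul_def, Algebra.smul_def, map_mul,
      ← IsScalarTower.algebraMap_apply, ← he, RingEquiv.apply_symm_apply]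
  let g : (R →ₗ[A] A) → (T →ₗ[A] A) := fun l =>
    { toFun := fun x => l (e.symm x)
      map_add' := by intro x y; rw [map_add, map_add]
      map_smul' := by intro a x; rw [hesm, map_smul]; rfl }
  have hg : ∀ l x, g l x = l (e.symm x) := fun _ _ => rfl
  let gA : (R →ₗ[A] A) →+ (T →ₗ[A] A) :=
    { toFun := g
      map_zero' := by ext x; rw [hg]; rfl
      map_add' := by intro l l'; ext x; rw [hg]; rfl }
  have hgb : Function.Bijective gA := by
    constructor
    · rw [injective_iff_map_eq_zero]
      intro l hl
      ext x
      have h1 := congrArg (fun q => q (e x)) hl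
      change l (e.symm (e x)) = 0 at h1
      rw [RingEquiv.symm_apply_apply] at h1
      exact h1
    · intro l
      refine ⟨{ toFun := fun x => l (e x), map_add' := ?_, map_smul' := ?_ }, ?_⟩
      · intro x y; rw [map_add, map_add]
      · intro a x
        have : e (a • x) = a • e x := by
          apply e.symm.injective
          rw [hesm, RingEquiv.symm_apply_apply, RingEquiv.symm_apply_apply]
        rw [this, map_smul]; rfl
      · ext x
        change l (e (e.symm x)) = l x
        rw [RingEquiv.apply_symm_apply]
  let G := AddEquiv.ofBijective gA hgb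
  refine ⟨(E.symm.trans ε).trans G, ?_⟩
  intro t w x
  obtain ⟨y, rfl⟩ := E.surjective w
  obtain ⟨s, rfl⟩ := e.surjective t
  have h1 : (e s) • E y = E (s • y) := by
    apply Subtype.ext
    rw [hE, hE]
    change e s * (f y : T) = (f (s • y) : T)
    rw [hf, hf, he]
    change _ = algebraMap R T (s * y)
    rw [map_mul]
  rw [h1, AddEquiv.trans_apply, AddEquiv.trans_apply, AddEquiv.trans_apply, AddEquiv.trans_apply,
    AddEquiv.symm_apply_apply, AddEquiv.symm_apply_apply]
  change ε (s • y) (e.symm x) = ε y (e.symm (e s * x))
  rw [hε, map_mul e.symm, RingEquiv.symm_apply_apply]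

end Pool.Agent.Ex26
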