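import Pool.Agent.Lib_helper26.Ex.Basis
import Pool.Agent.Lib_helper26.Ex.Dual
import Pool.Agent.Lib_helper26.Ex.Prin
import Pool.Agent.Lib_helper26.Ex.Transport
import Pool.Agent.Lib_helper22.CN.MinRed
import Pool.Agent.WFT.FinalDefs

/-!
The canonical ideal of the example ring, the example ring is not `ℚ`-Gorenstein, its dimension.
-/

namespace Pool.Agent.Ex26

open MvPowerSeries IsLocalRing

universe u

variable {m : ℕ} {k : Type*} [Field k]

section
variable {F : MvPowerSeries (Fin (m + 3)) k →+* Rg m k}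

theorem gg0 (hX : ∀ i, F (X i) = par i) : (gR (Sum.inl 0) : Rg m k) = F (X 0) := by
  rw [hX, par_zero]
theorem gg2 (hX : ∀ i, F (X i) = par i) : (gR (Sum.inl 2) : Rg m k) = gR (Sum.inl 1) + F (X 1) := by
  rw [hX, par_one]; ring
theorem gg4 (hX : ∀ i, F (X i) = par i) : (gR (Sum.inl 4) : Rg m k) = F (X 2) := by
  rw [hX, par_two]

theorem g11 (hX : ∀ i, F (X i) = par i) : (gR (Sum.inl 1) * gR (Sum.inl 1) : Rg m k) =
    F (X 0) * gR (Sum.inl 3) - F (X 1) * gR (Sum.inl 1) := by
  have h := rel12 (m := m) (k := k)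
  rw [gg2 hX, gg0 hX] at h
  linear_combination h

theorem g13 (hX : ∀ i, F (X i) = par i) : (gR (Sum.inl 1) * gR (Sum.inl 3) : Rg m k) =
    F (X 0) * F (X 2) := by
  have h := rel13 (m := m) (k := k)
  rw [gg4 hX, gg0 hX] at h
  exact h

theorem g33 (hX : ∀ i, F (X i) = par i) : (gR (Sum.inl 3) * gR (Sum.inl 3) : Rg m k) =
    F (X 2) * gR (Sum.inl 1) + F (X 1) * F (X 2) := by
  have h := rel33 (m := m) (k := k)
  rw [gg4 hX, gg2 hX] at h
  linear_combination h

/-- the basis `1, vs, uvt` -/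
theorem exists_basis (hC : ∀ a, F (C a) = algebraMap k (Rg m k) a)
    (hX : ∀ i, F (X i) = par i) (hF : F.Finite) :
    letI := F.toAlgebra
    ∃ b : Module.Basis (Fin 3) (MvPowerSeries (Fin (m + 3)) k) (Rg m k),
      b 0 = 1 ∧ b 1 = gR (Sum.inl 1) ∧ b 2 = gR (Sum.inl 3) := by
  let _ : Algebra (MvPowerSeries (Fin (m + 3)) k) (Rg m k) := F.toAlgebra
  have hsm : ∀ (a : MvPowerSeries (Fin (m + 3)) k) (r : Rg m k), a • r = F a * r := fun a r => rfl
  have hli : LinearIndependent (MvPowerSeries (Fin (m + 3)) k)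
      (![1, gR (Sum.inl 1), gR (Sum.inl 3)] : Fin 3 → Rg m k) := by
    rw [Fintype.linearIndependent_iff]
    intro g hg
    rw [Fin.sum_univ_three] at hg
    simp only [hsm, Matrix.cons_val_zero, Matrix.cons_val_one, mul_one] at hg
    obtain ⟨h0, h1, h2⟩ := indep hC hX (g 0) (g 1) (g 2) hg
    intro i
    fin_cases i
    · exact h0
    · exact h1
    · exact h2
  have hsp : ⊤ ≤ Submodule.span (MvPowerSeries (Fin (m + 3)) k)
      (Set.range (![1, gR (Sum.inl 1), gR (Sum.inl 3)] : Fin 3 → Rg m k)) := by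
    intro r _
    obtain ⟨a, b, c, h⟩ := spanning hC hX hF r
    rw [h]
    refine Submodule.add_mem _ (Submodule.add_mem _ ?_ ?_) ?_
    · have := Submodule.smul_mem (Submodule.span (MvPowerSeries (Fin (m + 3)) k)
        (Set.range (![1, gR (Sum.inl 1), gR (Sum.inl 3)] : Fin 3 → Rg m k))) a
        (Submodule.subset_span ⟨0, rfl⟩)
      simpa [hsm] using this
    · exact Submodule.smul_mem _ b (Submodule.subset_span ⟨1, rfl⟩)
    · exact Submodule.smul_mem _ c (Submodule.subset_span ⟨2, rfl⟩)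
  refine ⟨Module.Basis.mk hli hsp, ?_, ?_, ?_⟩
  · rw [Module.Basis.mk_apply]; rfl
  · rw [Module.Basis.mk_apply]; rfl
  · rw [Module.Basis.mk_apply]; rfl

end

variable (m k) in
/-- the canonical ideal `(us, vs)` -/
noncomputable def canI : Ideal (Rg m k) := Ideal.span {gR (Sum.inl 0), gR (Sum.inl 1)}

theorem isCanonicalIdeal_canI {m : ℕ} {k : Type u} [Field k] :
    WFT.IsCanonicalIdeal (Rg m k) (canI m k) := by
  obtain ⟨F, hC, hX, hF⟩ := exists_F (m := m) (k := k)
  obtain ⟨b, hb0, hb1, hb2⟩ := exists_basis hC hX hF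
  have hinj := F_injective hC hX
  let alg1 : Algebra (WFT.PS (m + 3) k) (Rg m k) := F.toAlgebra
  have hdual := isDual_abs (A := WFT.PS (m + 3) k) (R := Rg m k) (X 0) (X 1) (X 2) ?_
    (gR (Sum.inl 1)) (gR (Sum.inl 3)) b hb0 hb1 hb2 (g11 hX) (g13 hX) (g33 hX)
  · let T := AdicCompletion (maximalIdeal (Rg m k)) (Rg m k)
    let alg2 : Algebra (WFT.PS (m + 3) k) T := inferInstance
    have hst : IsScalarTower (WFT.PS (m + 3) k) (Rg m k) T := inferInstance
    have halg : algebraMap (WFT.PS (m + 3) k) T = (algebraMap (Rg m k) T).comp F :=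
      IsScalarTower.algebraMap_eq (WFT.PS (m + 3) k) (Rg m k) T
    have hb : Function.Bijective (algebraMap (Rg m k) T) :=
      (AdicCompletion.ofAlgEquiv (maximalIdeal (Rg m k))).bijective
    have hdual2 := isDual_transport (A := WFT.PS (m + 3) k) (R := Rg m k) (T := T) hb _ hdual
    refine ⟨m + 3, k, inferInstance, alg2, ?_, ?_, ?_⟩
    · rw [halg]
      exact hb.1.comp hinj
    · have h1 : (algebraMap (Rg m k) T).Finite := RingHom.Finite.of_surjective _ hb.2
      have h2 : ((algebraMap (Rg m k) T).comp F).Finite := h1.comp hF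
      rw [← halg] at h2
      exact RingHom.finite_algebraMap.mp h2
    · have : canI m k = Ideal.span {algebraMap (WFT.PS (m + 3) k) (Rg m k) (X 0),
          gR (Sum.inl 1)} := by
        rw [canI, gg0 hX]; rfl
      rw [this]
      exact hdual2
  · intro h
    have := congrArg (coeff (Finsupp.single 0 1)) h
    rw [coeff_X, if_pos rfl, map_zero] at this
    exact one_ne_zero this

theorem ringKrullDim_Rg : ringKrullDim (Rg m k) = (m + 3 : ℕ) := by
  obtain ⟨F, hC, hX, hF⟩ := exists_F (m := m) (k := k)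
  have hinj := F_injective hC hX
  let _ : Algebra (MvPowerSeries (Fin (m + 3)) k) (Rg m k) := F.toAlgebra
  have : Module.Finite (MvPowerSeries (Fin (m + 3)) k) (Rg m k) := hF
  refine le_antisymm ?_ ?_
  · exact (CN.ringKrullDim_le_of_isIntegral (A := MvPowerSeries (Fin (m + 3)) k)
      (B := Rg m k)).trans (CN.mvPowerSeries_dim (m + 3) k).le
  · exact (CN.mvPowerSeries_dim (m + 3) k).ge.trans
      (CN.ringKrullDim_le_of_isIntegral_of_injective (A := MvPowerSeries (Fin (m + 3)) k)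
        (B := Rg m k) hinj)

/-! ### the example ring is not `ℚ`-Gorenstein -/

theorem gR_pow (i : Fin 5 ⊕ Fin m) (n : ℕ) :
    ((gR i ^ n : Rg m k) : MvPowerSeries (Var m) k) = monomial (n • gen m i) 1 := by
  change ((gR i : Rg m k) : MvPowerSeries (Var m) k) ^ n = _
  rw [gR_val, monomial_pow, one_pow]

theorem not_dvd_pow (n : ℕ) (hn : 1 ≤ n) :
    ¬ (gR (Sum.inl 0) ^ n : Rg m k) ∣ gR (Sum.inl 2) ^ n := by
  classical
  rintro ⟨r, hr⟩
  have h1 := congrArg (fun x : Rg m k => coeff (n • gen m (Sum.inl 2))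
    (x : MvPowerSeries (Var m) k)) hr
  have h2 : ∀ r s : Rg m k, ((r * s : Rg m k) : MvPowerSeries (Var m) k) = r * s := fun _ _ => rfl
  simp only [h2, gR_pow] at h1
  rw [coeff_monomial, if_pos rfl, coeff_monomial_mul, if_neg] at h1
  · exact one_ne_zero h1
  · intro hle
    have h3 := hle (Sum.inl 2)
    simp [gen] at h3
    omega

theorem isUnit_of_dvd_pow (n : ℕ) (ρ : Rg m k) (h0 : ρ ∣ gR (Sum.inl 0) ^ n)
    (h1 : ρ ∣ gR (Sum.inl 1) ^ n) : IsUnit ρ := by
  classical
  obtain ⟨r0, hr0⟩ := h0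
  obtain ⟨r1, hr1⟩ := h1
  have hcoe : ∀ r s : Rg m k, ((r * s : Rg m k) : MvPowerSeries (Var m) k) = r * s := fun _ _ => rfl
  have e0 := congrArg (fun x : Rg m k => (x : MvPowerSeries (Var m) k)) hr0
  have e1 := congrArg (fun x : Rg m k => (x : MvPowerSeries (Var m) k)) hr1
  simp only [hcoe, gR_pow] at e0 e1
  let S := MvPowerSeries (Var m) k
  set u : S := X (Sum.inl 0) with hu
  set v : S := X (Sum.inl 1) with hv
  set s : S := X (Sum.inl 2) with hs
  have f0 : (monomial (n • gen m (Sum.inl 0)) (1 : k) : S) = u ^ n * s ^ n := by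
    rw [hu, hs, X_pow_eq, X_pow_eq, monomial_mul_monomial, one_mul]
    congr 1
    congr 1
    rw [show gen m (Sum.inl 0) = Finsupp.single (Sum.inl 0) 1 + Finsupp.single (Sum.inl 2) 1
      from rfl, smul_add, Finsupp.smul_single, Finsupp.smul_single, smul_eq_mul, mul_one]
  have f1 : (monomial (n • gen m (Sum.inl 1)) (1 : k) : S) = v ^ n * s ^ n := by
    rw [hv, hs, X_pow_eq, X_pow_eq, monomial_mul_monomial, one_mul]
    congr 1
    congr 1
    rw [show gen m (Sum.inl 1) = Finsupp.single (Sum.inl 1) 1 + Finsupp.single (Sum.inl 2) 1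
      from rfl, smul_add, Finsupp.smul_single, Finsupp.smul_single, smul_eq_mul, mul_one]
  rw [f0] at e0
  rw [f1] at e1
  have hX0 : ∀ i : Var m, (X i : S) ≠ 0 := by
    intro i h
    have := congrArg (coeff (Finsupp.single i 1)) h
    rw [coeff_X, if_pos rfl, map_zero] at this
    exact one_ne_zero this
  have hsn : s ^ n ≠ 0 := pow_ne_zero _ (hX0 _)
  have hun : u ^ n ≠ 0 := pow_ne_zero _ (hX0 _)
  have hρ0 : (ρ : S) ≠ 0 := by
    intro h
    rw [h, zero_mul] at e0
    exact mul_ne_zero hun hsn e0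
  -- r0 v^n = u^n r1
  have e2 : (r0 : S) * v ^ n = u ^ n * r1 := by
    have h3 : (ρ : S) * s ^ n * ((r0 : S) * v ^ n) = (ρ : S) * s ^ n * (u ^ n * r1) := by
      calc (ρ : S) * s ^ n * ((r0 : S) * v ^ n) = (ρ * r0) * (v ^ n * s ^ n) := by ring
        _ = (u ^ n * s ^ n) * (ρ * r1) := by rw [← e0, ← e1]
        _ = (ρ : S) * s ^ n * (u ^ n * r1) := by ring
    exact mul_left_cancel₀ (mul_ne_zero hρ0 hsn) h3
  have e3 : u ^ n ∣ (r0 : S) := by
    rw [hu, X_pow_dvd_iff]
    intro d hd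
    have h3 : coeff (d + Finsupp.single (Sum.inl 1) n) ((r0 : S) * v ^ n) = 0 := by
      rw [e2]
      have h4 : u ^ n ∣ u ^ n * (r1 : S) := dvd_mul_right _ _
      rw [hu, X_pow_dvd_iff] at h4
      apply h4
      simpa using hd
    rw [hv, X_pow_eq, coeff_mul_monomial, if_pos le_add_self, add_tsub_cancel_right, mul_one] at h3
    exact h3
  obtain ⟨y, hy⟩ := e3
  have e4 : s ^ n = (ρ : S) * y := by
    apply mul_left_cancel₀ hun
    rw [e0, hy]
    ring
  -- coefficient of s^n
  have e5 := congrArg (coeff (Finsupp.single (Sum.inl 2) n)) e4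
  rw [hs, X_pow_eq, coeff_monomial, if_pos rfl, coeff_mul,
    Finset.sum_eq_single ((0 : Var m →₀ ℕ), Finsupp.single (Sum.inl 2) n)] at e5
  · apply isUnit_R0
    rw [MvPowerSeries.isUnit_iff_constantCoeff]
    apply isUnit_iff_ne_zero.mpr
    intro h
    rw [coeff_zero_eq_constantCoeff_apply, h, zero_mul] at e5
    exact one_ne_zero e5
  · rintro ⟨a, b⟩ hab hne
    rw [Finset.HasAntidiagonal.mem_antidiagonal] at hab
    have hab' : a + b = Finsupp.single (Sum.inl 2) n := hab
    by_cases ha : Wt m a = 0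
    · exfalso
      apply hne
      have h5 : ∀ i, i ≠ Sum.inl 2 → a i = 0 := by
        intro i hi
        have h6 := congrArg (fun g => g i) hab'
        simp only [Finsupp.add_apply] at h6
        rw [Finsupp.single_apply, if_neg (Ne.symm hi)] at h6
        omega
      have h7 : a (Sum.inl 2) = 0 := by
        rw [Wt_apply, h5 _ (by simp), h5 _ (by simp), h5 (Sum.inl 3) (by simp)] at ha
        omega
      have h8 : a = 0 := by
        ext i
        by_cases hi : i = Sum.inl 2
        · rw [hi, h7]; rfl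
        · rw [h5 i hi]; rfl
      rw [h8] at hab' ⊢
      rw [zero_add] at hab'
      rw [hab']
    · have : coeff a (ρ : S) = 0 := ρ.2 a ha
      change coeff a (ρ : S) * coeff b y = 0
      rw [this, zero_mul]
  · intro h
    exact absurd (by rw [Finset.HasAntidiagonal.mem_antidiagonal]; simp) h

theorem nonQGorenstein_Rg {m : ℕ} {k : Type u} [Field k] : WFT.NonQGorenstein (Rg m k) := by
  refine ⟨canI m k, isCanonicalIdeal_canI, fun n hn => ?_⟩
  have hg0 : (gR (Sum.inl 0) : Rg m k) ≠ 0 := by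
    intro h
    have h2 := congrArg (fun x : Rg m k => coeff (gen m (Sum.inl 0)) (x : MvPowerSeries (Var m) k)) h
    classical
    simp only [gR_val] at h2
    rw [coeff_monomial, if_pos rfl] at h2
    exact one_ne_zero (h2.trans (map_zero _))
  exact not_prinPow_abs (gR (Sum.inl 0)) (gR (Sum.inl 1)) (gR (Sum.inl 2)) (gR (Sum.inl 3)) hg0
    rel12 n (not_dvd_pow n hn) (isUnit_of_dvd_pow n)

end Pool.Agent.Ex26
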