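import Pool.Agent.Lib_helper26.Ex.Local

/-!
Parameters of the example ring, and coefficient formula for ring homomorphisms of power series
rings sending the variables to monomials.
-/

namespace Pool.Agent.Ex26

open MvPowerSeries IsLocalRing

section hom
variable {τ τ' : Type*} [Finite τ] [Finite τ'] {k : Type*} [Field k]

/-- coefficients of the image of a power series under a local homomorphism over `k` -/
theorem coeff_hom (G : MvPowerSeries τ k →+* MvPowerSeries τ' k) (hC : ∀ a, G (C a) = C a)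
    (hX : ∀ i, constantCoeff (G (X i)) = 0) (f : MvPowerSeries τ k) (e : τ' →₀ ℕ) (N : ℕ)
    (hN : e.degree < N) :
    coeff e (G f) = ∑ d ∈ (truncTotal N f).support,
      coeff d f * coeff e (∏ i ∈ d.support, (G (X i)) ^ d i) := by
  classical
  have := Fintype.ofFinite τ
  have h1 : f - ((truncTotal N f : MvPolynomial τ k) : MvPowerSeries τ k) ∈
      CN.varIdeal τ k ^ N := by
    rw [CN.mem_varIdeal_pow_iff]
    intro d hd
    rw [map_sub, MvPolynomial.coeff_coe, coeff_truncTotal _ hd, sub_self]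
  have h2 : (CN.varIdeal τ k).map G ≤ CN.varIdeal τ' k := by
    rw [Ideal.map_span, Ideal.span_le]
    rintro _ ⟨_, ⟨i, rfl⟩, rfl⟩
    change _ ∈ CN.varIdeal τ' k
    rw [← CN.maximalIdeal_mvPowerSeries, mem_maximalIdeal, mem_nonunits_iff,
        MvPowerSeries.isUnit_iff_constantCoeff, hX]
    exact not_isUnit_zero
  have h3 : G (f - ((truncTotal N f : MvPolynomial τ k) : MvPowerSeries τ k)) ∈
      CN.varIdeal τ' k ^ N := by
    have h3 := Ideal.mem_map_of_mem G h1
    rw [Ideal.map_pow] at h3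
    exact Ideal.pow_right_mono h2 N h3
  have h4 := (CN.mem_varIdeal_pow_iff N _).mp h3 e hN
  rw [map_sub, map_sub, sub_eq_zero] at h4
  rw [h4]
  have h5 : ∀ P : MvPolynomial τ k, G (P : MvPowerSeries τ k) =
      MvPolynomial.eval₂ (C : k →+* MvPowerSeries τ' k) (fun i => G (X i)) P := by
    intro P
    have h6 : G.comp (MvPolynomial.coeToMvPowerSeries.ringHom (σ := τ) (R := k)) =
        MvPolynomial.eval₂Hom (C : k →+* MvPowerSeries τ' k) (fun i => G (X i)) := by
      apply MvPolynomial.ringHom_ext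
      · intro a
        simp [hC]
      · intro i
        simp
    exact congrArg (fun h => h P) h6
  rw [h5, MvPolynomial.eval₂_eq, map_sum]
  refine Finset.sum_congr rfl fun d hd => ?_
  rw [coeff_C_mul]
  congr 1
  have h7 : d.degree < N := by
    by_contra hc
    rw [MvPolynomial.mem_support_iff] at hd
    exact hd (coeff_truncTotal_eq_zero _ (by omega))
  exact coeff_truncTotal _ h7

theorem coeff_hom' (G : MvPowerSeries τ k →+* MvPowerSeries τ' k) (hC : ∀ a, G (C a) = C a)
    (hX : ∀ i, constantCoeff (G (X i)) = 0) (f : MvPowerSeries τ k) (e : τ' →₀ ℕ)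
    (h0 : ∀ d : τ →₀ ℕ, coeff e (∏ i ∈ d.support, (G (X i)) ^ d i) = 0) : coeff e (G f) = 0 := by
  rw [coeff_hom G hC hX f e (e.degree + 1) (by omega)]
  exact Finset.sum_eq_zero fun d _ => by rw [h0, mul_zero]

open Classical in
theorem coeff_hom_single (G : MvPowerSeries τ k →+* MvPowerSeries τ' k) (hC : ∀ a, G (C a) = C a)
    (hX : ∀ i, constantCoeff (G (X i)) = 0) (f : MvPowerSeries τ k) (e : τ' →₀ ℕ) (d0 : τ →₀ ℕ)
    (h0 : ∀ d : τ →₀ ℕ, coeff e (∏ i ∈ d.support, (G (X i)) ^ d i) = if d = d0 then 1 else 0) :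
    coeff e (G f) = coeff d0 f := by
  rw [coeff_hom G hC hX f e (e.degree + d0.degree + 1) (by omega)]
  rw [Finset.sum_congr rfl fun d _ => by rw [h0 d]]
  simp only [mul_ite, mul_one, mul_zero]
  rw [Finset.sum_ite_eq']
  split_ifs with h
  · rfl
  · symm
    rw [MvPolynomial.mem_support_iff, not_not, coeff_truncTotal _ (by omega)] at h
    exact h

end hom

variable {m : ℕ} {k : Type*} [Field k]

/-- the parameters `us, u²t - vs, v²t, w_1, ..., w_m` -/
noncomputable def par : Fin (m + 3) → Rg m k :=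
  Fin.cons (gR (Sum.inl 0)) (Fin.cons (gR (Sum.inl 2) - gR (Sum.inl 1))
    (Fin.cons (gR (Sum.inl 4)) (fun j => gR (Sum.inr j))))

theorem par_zero : (par 0 : Rg m k) = gR (Sum.inl 0) := rfl
theorem par_one : (par 1 : Rg m k) = gR (Sum.inl 2) - gR (Sum.inl 1) := rfl
theorem par_two : (par 2 : Rg m k) = gR (Sum.inl 4) := rfl
theorem par_add (j : Fin m) : (par j.succ.succ.succ : Rg m k) = gR (Sum.inr j) := rfl

theorem rel12 : (gR (Sum.inl 1) * gR (Sum.inl 2) : Rg m k) = gR (Sum.inl 0) * gR (Sum.inl 3) := by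
  apply Subtype.ext
  change monomial _ _ * monomial _ _ = monomial _ _ * monomial _ _
  rw [monomial_mul_monomial, monomial_mul_monomial]
  congr 1
  congr 1
  ext i
  simp [gen, Finsupp.single_apply]
  split_ifs <;> simp_all

theorem rel13 : (gR (Sum.inl 1) * gR (Sum.inl 3) : Rg m k) = gR (Sum.inl 0) * gR (Sum.inl 4) := by
  apply Subtype.ext
  change monomial _ _ * monomial _ _ = monomial _ _ * monomial _ _
  rw [monomial_mul_monomial, monomial_mul_monomial]
  congr 1
  congr 1
  ext i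
  simp [gen, Finsupp.single_apply]
  split_ifs <;> simp_all

theorem rel33 : (gR (Sum.inl 3) * gR (Sum.inl 3) : Rg m k) = gR (Sum.inl 2) * gR (Sum.inl 4) := by
  apply Subtype.ext
  change monomial _ _ * monomial _ _ = monomial _ _ * monomial _ _
  rw [monomial_mul_monomial, monomial_mul_monomial]
  congr 1
  congr 1
  ext i
  simp [gen, Finsupp.single_apply]
  split_ifs <;> simp_all

theorem gR_mem_maximalIdeal (i : Fin 5 ⊕ Fin m) : (gR i : Rg m k) ∈ maximalIdeal (Rg m k) := by
  rw [maximalIdeal_eq]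
  exact Ideal.subset_span ⟨i, rfl⟩

theorem par_mem_maximalIdeal (i : Fin (m + 3)) : (par i : Rg m k) ∈ maximalIdeal (Rg m k) := by
  refine Fin.cases ?_ (fun i => ?_) i
  · exact gR_mem_maximalIdeal _
  refine Fin.cases ?_ (fun i => ?_) i
  · exact Ideal.sub_mem _ (gR_mem_maximalIdeal _) (gR_mem_maximalIdeal _)
  refine Fin.cases ?_ (fun i => ?_) i
  · exact gR_mem_maximalIdeal _
  · exact gR_mem_maximalIdeal _

theorem g0_mem : (gR (Sum.inl 0) : Rg m k) ∈ Ideal.span (Set.range (par : Fin (m + 3) → Rg m k)) :=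
  Ideal.subset_span ⟨0, rfl⟩
theorem g4_mem : (gR (Sum.inl 4) : Rg m k) ∈ Ideal.span (Set.range (par : Fin (m + 3) → Rg m k)) :=
  Ideal.subset_span ⟨2, rfl⟩
theorem g21_mem : (gR (Sum.inl 2) - gR (Sum.inl 1) : Rg m k) ∈
    Ideal.span (Set.range (par : Fin (m + 3) → Rg m k)) :=
  Ideal.subset_span ⟨1, rfl⟩
theorem gr_mem (j : Fin m) : (gR (Sum.inr j) : Rg m k) ∈
    Ideal.span (Set.range (par : Fin (m + 3) → Rg m k)) :=
  Ideal.subset_span ⟨j.succ.succ.succ, rfl⟩

theorem maximalIdeal_sq_le :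
    maximalIdeal (Rg m k) ^ 2 ≤ Ideal.span (Set.range (par : Fin (m + 3) → Rg m k)) := by
  set P := Ideal.span (Set.range (par : Fin (m + 3) → Rg m k)) with hP
  rw [maximalIdeal_eq, pow_two, Ideal.span_mul_span', Ideal.span_le]
  have h0 : (gR (Sum.inl 0) : Rg m k) ∈ P := g0_mem
  have h4 : (gR (Sum.inl 4) : Rg m k) ∈ P := g4_mem
  have h21 : (gR (Sum.inl 2) - gR (Sum.inl 1) : Rg m k) ∈ P := g21_mem
  have hr : ∀ j : Fin m, (gR (Sum.inr j) : Rg m k) ∈ P := gr_mem
  have h12 : (gR (Sum.inl 1) * gR (Sum.inl 2) : Rg m k) ∈ P := by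
    rw [rel12]; exact P.mul_mem_right _ h0
  have h13 : (gR (Sum.inl 1) * gR (Sum.inl 3) : Rg m k) ∈ P := by
    rw [rel13]; exact P.mul_mem_right _ h0
  have h33 : (gR (Sum.inl 3) * gR (Sum.inl 3) : Rg m k) ∈ P := by
    rw [rel33]; exact P.mul_mem_left _ h4
  have h11 : (gR (Sum.inl 1) * gR (Sum.inl 1) : Rg m k) ∈ P := by
    have : (gR (Sum.inl 1) * gR (Sum.inl 1) : Rg m k) = gR (Sum.inl 1) * gR (Sum.inl 2) -
      gR (Sum.inl 1) * (gR (Sum.inl 2) - gR (Sum.inl 1)) := by ring
    rw [this]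
    exact P.sub_mem h12 (P.mul_mem_left _ h21)
  have h22 : (gR (Sum.inl 2) * gR (Sum.inl 2) : Rg m k) ∈ P := by
    have : (gR (Sum.inl 2) * gR (Sum.inl 2) : Rg m k) = gR (Sum.inl 1) * gR (Sum.inl 2) +
      gR (Sum.inl 2) * (gR (Sum.inl 2) - gR (Sum.inl 1)) := by ring
    rw [this]
    exact P.add_mem h12 (P.mul_mem_left _ h21)
  have h23 : (gR (Sum.inl 2) * gR (Sum.inl 3) : Rg m k) ∈ P := by
    have : (gR (Sum.inl 2) * gR (Sum.inl 3) : Rg m k) = gR (Sum.inl 1) * gR (Sum.inl 3) +
      gR (Sum.inl 3) * (gR (Sum.inl 2) - gR (Sum.inl 1)) := by ring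
    rw [this]
    exact P.add_mem h13 (P.mul_mem_left _ h21)
  have key : ∀ i j : Fin 5, (gR (Sum.inl i) * gR (Sum.inl j) : Rg m k) ∈ P := by
    intro i j
    fin_cases i <;> fin_cases j
    · exact P.mul_mem_right _ h0
    · exact P.mul_mem_right _ h0
    · exact P.mul_mem_right _ h0
    · exact P.mul_mem_right _ h0
    · exact P.mul_mem_right _ h0
    · exact P.mul_mem_left _ h0
    · exact h11
    · exact h12
    · exact h13
    · exact P.mul_mem_left _ h4
    · exact P.mul_mem_left _ h0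
    · rw [mul_comm]; exact h12
    · exact h22
    · exact h23
    · exact P.mul_mem_left _ h4
    · exact P.mul_mem_left _ h0
    · rw [mul_comm]; exact h13
    · rw [mul_comm]; exact h23
    · exact h33
    · exact P.mul_mem_left _ h4
    · exact P.mul_mem_right _ h4
    · exact P.mul_mem_right _ h4
    · exact P.mul_mem_right _ h4
    · exact P.mul_mem_right _ h4
    · exact P.mul_mem_right _ h4
  intro x hx
  obtain ⟨a, ⟨i, rfl⟩, b, ⟨j, rfl⟩, rfl⟩ := hx
  rcases i with i | i
  · rcases j with j | j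
    · exact key i j
    · exact P.mul_mem_left _ (hr j)
  · exact P.mul_mem_right _ (hr i)

/-- Noether normalisation of the example ring -/
theorem exists_F : ∃ F : MvPowerSeries (Fin (m + 3)) k →+* Rg m k,
    (∀ a, F (C a) = algebraMap k (Rg m k) a) ∧ (∀ i, F (X i) = par i) ∧ F.Finite := by
  classical
  have hfg : (maximalIdeal (Rg m k)).FG := by
    rw [maximalIdeal_eq]
    exact ⟨Finset.univ.image gR, by rw [Finset.coe_image, Finset.coe_univ, Set.image_univ]⟩
  refine CN.exists_noether (maximalIdeal (Rg m k)) hfg (algebraMap k (Rg m k)) ?_ par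
    par_mem_maximalIdeal 2 maximalIdeal_sq_le
  intro r
  refine ⟨constantCoeff (r : MvPowerSeries (Var m) k), ?_⟩
  rw [mem_maximalIdeal_R0]
  have h : ((r - algebraMap k (Rg m k) (constantCoeff (r : MvPowerSeries (Var m) k)) : Rg m k) :
    MvPowerSeries (Var m) k) = (r : MvPowerSeries (Var m) k) -
      C (constantCoeff (r : MvPowerSeries (Var m) k)) := rfl
  rw [h, map_sub, constantCoeff_C, sub_self]

end Pool.Agent.Ex26
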