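import Pool.Agent.Lib_helper26.Ex.Props
import Pool.Agent.Lib_helper66.WFT.Split
import Pool.Agent.Lib_helper77.FB.FFinEx

/-!
The example: for every prime `p` and every `d ≥ 3` there is an admissible ring of characteristic `p`
and dimension `d` all of whose pairs `(R, 𝔪^t)`, `t < d - 3/2`, are F-pure.
-/

namespace Pool.Agent.Ex26

open MvPowerSeries IsLocalRing

universe u

theorem exists_example (p : ℕ) [hp : Fact p.Prime] (d : ℕ) (hd : 3 ≤ d) :
    ∃ (R : Type u) (_ : CommRing R) (_ : IsLocalRing R), WFT.Admissible R p d ∧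
      ∀ t : ℝ, t < (d : ℝ) - 3 / 2 → WFT.FPurePair R p (maximalIdeal R) t := by
  let k : Type u := AlgebraicClosure (ULift.{u} (ZMod p))
  have hchar : CharP k p := inferInstance
  have hperf : PerfectRing k p := inferInstance
  have hinf : Infinite k := inferInstance
  obtain ⟨m, rfl⟩ : ∃ m, d = m + 3 := ⟨d - 3, by omega⟩
  have hcR : CharP (Rg m k) p := charP_Rg m k p
  have hfin : (frobenius (Rg m k) p).Finite := Lib_helper77.FB.ffin_Rg' m k p
  have hpure : WFT.FrobSplits (Rg m k) p 1 := by
    have := Ex26S.frobSplits_one (k := k) m p 1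
    rwa [pow_one] at this
  refine ⟨Rg m k, inferInstance, inferInstance, admissible_Rg m k p hfin hpure, ?_⟩
  intro t ht
  apply Ex26S.fpurePair_Rg
  push_cast at ht
  exact ht

end Pool.Agent.Ex26
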