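import Pool.Agent.Lib_helper26.Ex.Noether

/-!
`1, vs, uvt` is a basis of the example ring over its Noether normalisation.
-/

namespace Pool.Agent.Ex26

open MvPowerSeries IsLocalRing

variable {m : ℕ} {k : Type*} [Field k]

/-- images of the variables under `u ↦ y, v ↦ q, s ↦ y² z, t ↦ q z` -/
noncomputable def psiExp (m : ℕ) : Var m → (Fin 3 ⊕ Fin m →₀ ℕ)
  | Sum.inl i => ![Finsupp.single (Sum.inl 0) 1, Finsupp.single (Sum.inl 1) 1,
      Finsupp.single (Sum.inl 0) 2 + Finsupp.single (Sum.inl 2) 1,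
      Finsupp.single (Sum.inl 1) 1 + Finsupp.single (Sum.inl 2) 1] i
  | Sum.inr j => Finsupp.single (Sum.inr j) 1

theorem psiExp_ne_zero (m : ℕ) (i : Var m) : psiExp m i ≠ 0 := by
  intro h
  have h2 : (psiExp m i).degree = 0 := by rw [h]; simp
  rcases i with i | i
  · fin_cases i <;> simp [psiExp, map_add, Finsupp.degree_single] at h2
  · simp [psiExp, Finsupp.degree_single] at h2

theorem hasSubst_psi (m : ℕ) (k : Type*) [Field k] :
    HasSubst (fun i => (monomial (psiExp m i) (1 : k) : MvPowerSeries (Fin 3 ⊕ Fin m) k)) := by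
  classical
  apply hasSubst_of_constantCoeff_zero
  intro i
  rw [← coeff_zero_eq_constantCoeff_apply, coeff_monomial, if_neg]
  exact fun h => psiExp_ne_zero m i h.symm

/-- the homomorphism `u ↦ y, v ↦ q, s ↦ y² z, t ↦ q z` -/
noncomputable def psi (m : ℕ) (k : Type*) [Field k] :
    MvPowerSeries (Var m) k →ₐ[k] MvPowerSeries (Fin 3 ⊕ Fin m) k :=
  substAlgHom (hasSubst_psi m k)

theorem psi_X (i : Var m) : psi m k (X i) = monomial (psiExp m i) 1 := by
  rw [psi, substAlgHom_X]

/-- the exponent of the image of a monomial -/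
noncomputable def sE (d : Var m →₀ ℕ) : Fin 3 ⊕ Fin m →₀ ℕ := d.sum fun i a => a • psiExp m i

theorem sE_add (a b : Var m →₀ ℕ) : sE (a + b) = sE a + sE b :=
  Finsupp.sum_add_index' (h := fun i a => a • psiExp m i) (fun _ => zero_smul _ _)
    (fun _ _ _ => add_smul _ _ _)

theorem sE_single (i : Var m) (a : ℕ) : sE (Finsupp.single i a) = a • psiExp m i :=
  Finsupp.sum_single_index (h := fun i a => a • psiExp m i) (zero_smul _ _)

theorem psi_monomial (d : Var m →₀ ℕ) :
    psi m k (monomial d 1) = monomial (sE d) 1 := by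
  classical
  have h1 : (monomial d (1 : k) : MvPowerSeries (Var m) k) = ∏ i ∈ d.support, (X i) ^ d i := by
    rw [monomial_one_eq]
    rfl
  rw [h1, map_prod]
  simp_rw [map_pow, psi_X, monomial_pow, one_pow]
  rw [sE, Finsupp.sum]
  have : ∀ S : Finset (Var m), ∏ i ∈ S, (monomial (d i • psiExp m i) (1 : k) :
      MvPowerSeries (Fin 3 ⊕ Fin m) k) = monomial (∑ i ∈ S, d i • psiExp m i) 1 := by
    intro S
    induction S using Finset.induction_on with
    | empty => simp
    | insert a S ha ih =>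
      rw [Finset.prod_insert ha, Finset.sum_insert ha, ih, monomial_mul_monomial, one_mul]
  exact this _

theorem psi_g0 : psi m k (gR (Sum.inl 0) : Rg m k) =
    monomial (Finsupp.single (Sum.inl 0) 3 + Finsupp.single (Sum.inl 2) 1) 1 := by
  rw [gR_val, psi_monomial]
  congr 1
  congr 1
  rw [show gen m (Sum.inl 0) = Finsupp.single (Sum.inl 0) 1 + Finsupp.single (Sum.inl 2) 1 from rfl,
    sE_add, sE_single, sE_single]
  ext i
  simp [psiExp, Finsupp.single_apply]
  split_ifs <;> simp_all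

theorem psi_g1 : psi m k (gR (Sum.inl 1) : Rg m k) =
    monomial (Finsupp.single (Sum.inl 0) 2 + Finsupp.single (Sum.inl 1) 1 +
      Finsupp.single (Sum.inl 2) 1) 1 := by
  rw [gR_val, psi_monomial]
  congr 1
  congr 1
  rw [show gen m (Sum.inl 1) = Finsupp.single (Sum.inl 1) 1 + Finsupp.single (Sum.inl 2) 1 from rfl,
    sE_add, sE_single, sE_single]
  ext i
  simp [psiExp, Finsupp.single_apply]
  split_ifs <;> simp_all

theorem psi_g2 : psi m k (gR (Sum.inl 2) : Rg m k) =
    monomial (Finsupp.single (Sum.inl 0) 2 + Finsupp.single (Sum.inl 1) 1 +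
      Finsupp.single (Sum.inl 2) 1) 1 := by
  rw [gR_val, psi_monomial]
  congr 1
  congr 1
  rw [show gen m (Sum.inl 2) = Finsupp.single (Sum.inl 0) 2 + Finsupp.single (Sum.inl 3) 1 from rfl,
    sE_add, sE_single, sE_single]
  ext i
  simp [psiExp, Finsupp.single_apply]
  split_ifs <;> simp_all

theorem psi_g3 : psi m k (gR (Sum.inl 3) : Rg m k) =
    monomial (Finsupp.single (Sum.inl 0) 1 + Finsupp.single (Sum.inl 1) 2 +
      Finsupp.single (Sum.inl 2) 1) 1 := by
  rw [gR_val, psi_monomial]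
  congr 1
  congr 1
  rw [show gen m (Sum.inl 3) = Finsupp.single (Sum.inl 0) 1 + Finsupp.single (Sum.inl 1) 1 +
      Finsupp.single (Sum.inl 3) 1 from rfl,
    sE_add, sE_add, sE_single, sE_single, sE_single]
  ext i
  simp [psiExp, Finsupp.single_apply]
  split_ifs <;> simp_all

theorem psi_g4 : psi m k (gR (Sum.inl 4) : Rg m k) =
    monomial (Finsupp.single (Sum.inl 1) 3 + Finsupp.single (Sum.inl 2) 1) 1 := by
  rw [gR_val, psi_monomial]
  congr 1
  congr 1
  rw [show gen m (Sum.inl 4) = Finsupp.single (Sum.inl 1) 2 + Finsupp.single (Sum.inl 3) 1 from rfl,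
    sE_add, sE_single, sE_single]
  ext i
  simp [psiExp, Finsupp.single_apply]
  split_ifs <;> simp_all

theorem psi_gr (j : Fin m) : psi m k (gR (Sum.inr j) : Rg m k) =
    monomial (Finsupp.single (Sum.inr j) 1) 1 := by
  rw [gR_val, psi_monomial]
  congr 1
  congr 1
  rw [show gen m (Sum.inr j) = Finsupp.single (Sum.inr j) 1 from rfl,
    sE_single]
  simp [psiExp]

/-- the exponent of the image of a monomial -/
noncomputable def theta (d : Fin (m + 3) →₀ ℕ) : (Fin 3 ⊕ Fin m) →₀ ℕ :=
  d 0 • (Finsupp.single (Sum.inl 0) 3 + Finsupp.single (Sum.inl 2) 1) +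
  d 2 • (Finsupp.single (Sum.inl 1) 3 + Finsupp.single (Sum.inl 2) 1) +
  ∑ j : Fin m, d j.succ.succ.succ • Finsupp.single (Sum.inr j) 1

theorem theta_0 (d : Fin (m + 3) →₀ ℕ) : theta d (Sum.inl 0) = d 0 * 3 := by
  simp [theta]

theorem theta_1 (d : Fin (m + 3) →₀ ℕ) : theta d (Sum.inl 1) = d 2 * 3 := by
  simp [theta]

theorem theta_r (d : Fin (m + 3) →₀ ℕ) (j : Fin m) :
    theta d (Sum.inr j) = d j.succ.succ.succ := by
  simp [theta, Finsupp.single_apply]

variable (F : MvPowerSeries (Fin (m + 3)) k →+* Rg m k)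

/-- the composite homomorphism -/
noncomputable def GG : MvPowerSeries (Fin (m + 3)) k →+* MvPowerSeries (Fin 3 ⊕ Fin m) k :=
  ((psi m k).toRingHom.comp (inc (Wt m) k)).comp F

theorem GG_apply (a : MvPowerSeries (Fin (m + 3)) k) : GG F a = psi m k (F a : Rg m k) := rfl

variable {F}

theorem GG_C (hC : ∀ a, F (C a) = algebraMap k (Rg m k) a) (a : k) : GG F (C a) = C a := by
  rw [GG_apply, hC]
  exact (psi m k).commutes a

theorem GG_0 (hX : ∀ i, F (X i) = par i) : GG F (X 0) =
    monomial (Finsupp.single (Sum.inl 0) 3 + Finsupp.single (Sum.inl 2) 1) 1 := by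
  rw [GG_apply, hX, par_zero, psi_g0]

theorem GG_1 (hX : ∀ i, F (X i) = par i) : GG F (X 1) = 0 := by
  rw [GG_apply, hX, par_one]
  have h : ((gR (Sum.inl 2) - gR (Sum.inl 1) : Rg m k) : MvPowerSeries (Var m) k) =
    (gR (Sum.inl 2) : Rg m k) - (gR (Sum.inl 1) : Rg m k) := rfl
  rw [h, map_sub, psi_g1, psi_g2, sub_self]

theorem GG_2 (hX : ∀ i, F (X i) = par i) : GG F (X 2) =
    monomial (Finsupp.single (Sum.inl 1) 3 + Finsupp.single (Sum.inl 2) 1) 1 := by
  rw [GG_apply, hX, par_two, psi_g4]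

theorem GG_r (hX : ∀ i, F (X i) = par i) (j : Fin m) : GG F (X j.succ.succ.succ) =
    monomial (Finsupp.single (Sum.inr j) 1) 1 := by
  rw [GG_apply, hX, par_add, psi_gr]

theorem GG_prod (hX : ∀ i, F (X i) = par i) (d : Fin (m + 3) →₀ ℕ) :
    ∏ i ∈ d.support, (GG F (X i)) ^ d i = if d 1 = 0 then monomial (theta d) 1 else 0 := by
  classical
  rw [Finset.prod_subset (Finset.subset_univ _) (fun i _ hi => by
    rw [Finsupp.notMem_support_iff.mp hi, pow_zero])]
  rw [Fin.prod_univ_succ, Fin.prod_univ_succ, Fin.prod_univ_succ]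
  rw [show (Fin.succ 0 : Fin (m + 3)) = 1 from rfl, show (Fin.succ (Fin.succ 0) : Fin (m + 3)) = 2
    from rfl, GG_0 hX, GG_1 hX, GG_2 hX]
  simp_rw [GG_r hX, monomial_pow, one_pow]
  have : ∀ S : Finset (Fin m), ∏ j ∈ S, (monomial (d j.succ.succ.succ • Finsupp.single (Sum.inr j) 1)
      (1 : k) : MvPowerSeries (Fin 3 ⊕ Fin m) k) =
      monomial (∑ j ∈ S, d j.succ.succ.succ • Finsupp.single (Sum.inr j) 1) 1 := by
    intro S
    induction S using Finset.induction_on with
    | empty => simp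
    | insert a S ha ih =>
      rw [Finset.prod_insert ha, Finset.sum_insert ha, ih, monomial_mul_monomial, one_mul]
  rw [this]
  split_ifs with h
  · rw [h, pow_zero, one_mul, monomial_mul_monomial, monomial_mul_monomial, one_mul, one_mul,
      theta, ← add_assoc]
  · rw [zero_pow h, zero_mul, mul_zero]

theorem GG_const (hX : ∀ i, F (X i) = par i) (i : Fin (m + 3)) :
    constantCoeff (GG F (X i)) = 0 := by
  classical
  have key : ∀ e : (Fin 3 ⊕ Fin m) →₀ ℕ, e.degree ≠ 0 →
      constantCoeff (monomial e (1 : k)) = 0 := by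
    intro e he
    rw [← coeff_zero_eq_constantCoeff_apply, coeff_monomial, if_neg]
    rintro rfl
    simp at he
  refine Fin.cases ?_ (fun i => ?_) i
  · rw [GG_0 hX]
    exact key _ (by simp [map_add, Finsupp.degree_single])
  refine Fin.cases ?_ (fun i => ?_) i
  · rw [show (Fin.succ 0 : Fin (m + 3)) = 1 from rfl, GG_1 hX, map_zero]
  refine Fin.cases ?_ (fun i => ?_) i
  · rw [show (Fin.succ (Fin.succ 0) : Fin (m + 3)) = 2 from rfl, GG_2 hX]
    exact key _ (by simp [map_add, Finsupp.degree_single])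
  · rw [GG_r hX]
    exact key _ (by simp [Finsupp.degree_single])

theorem coeff_GG_eq_zero (hC : ∀ a, F (C a) = algebraMap k (Rg m k) a)
    (hX : ∀ i, F (X i) = par i) (f : MvPowerSeries (Fin (m + 3)) k)
    (e : (Fin 3 ⊕ Fin m) →₀ ℕ) (he : ¬ 3 ∣ e (Sum.inl 0)) : coeff e (GG F f) = 0 := by
  classical
  apply coeff_hom' (GG F) (GG_C hC) (GG_const hX)
  intro d
  rw [GG_prod hX]
  split_ifs
  · rw [coeff_monomial, if_neg]
    rintro rfl
    rw [theta_0] at he
    exact he ⟨_, mul_comm _ _⟩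
  · simp

theorem coeff_GG_theta (hC : ∀ a, F (C a) = algebraMap k (Rg m k) a)
    (hX : ∀ i, F (X i) = par i) (f : MvPowerSeries (Fin (m + 3)) k)
    (d0 : Fin (m + 3) →₀ ℕ) (h0 : d0 1 = 0) : coeff (theta d0) (GG F f) = coeff d0 f := by
  classical
  apply coeff_hom_single (GG F) (GG_C hC) (GG_const hX)
  intro d
  rw [GG_prod hX]
  by_cases h1 : d 1 = 0
  · rw [if_pos h1, coeff_monomial]
    by_cases hd : d = d0
    · rw [hd, if_pos rfl, if_pos rfl]
    · rw [if_neg hd, if_neg]
      intro h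
      apply hd
      ext i
      refine Fin.cases ?_ (fun i => ?_) i
      · have := congrArg (fun g => g (Sum.inl 0)) h
        simp only [theta_0] at this
        omega
      refine Fin.cases ?_ (fun i => ?_) i
      · rw [show (Fin.succ 0 : Fin (m + 3)) = 1 from rfl, h1, h0]
      refine Fin.cases ?_ (fun i => ?_) i
      · have := congrArg (fun g => g (Sum.inl 1)) h
        simp only [theta_1] at this
        rw [show (Fin.succ (Fin.succ 0) : Fin (m + 3)) = 2 from rfl]
        omega
      · have := congrArg (fun g => g (Sum.inr i)) h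
        simp only [theta_r] at this
        omega
  · rw [if_neg h1, if_neg]
    · simp
    · rintro rfl
      exact h1 h0

end Pool.Agent.Ex26
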