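import Pool.Agent.Lib_helper26.Ex.Base

/-!
The maximal ideal, completeness and Noether normalisation of the example ring.
-/

namespace Pool.Agent.Ex26

open MvPowerSeries IsLocalRing

variable (m : ℕ) (k : Type*) [Field k]

/-- the example ring -/
abbrev Rg : Type _ := R0 (Wt m) k

variable {m k}

/-- the generators of the maximal ideal -/
noncomputable def gR (i : Fin 5 ⊕ Fin m) : Rg m k :=
  ⟨monomial (gen m i) 1, by
    have := monomial_mem_wt (W := Wt m) (gen m i) (1 : k)
    rw [Wt_gen] at this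
    exact this⟩

theorem gR_val (i : Fin 5 ⊕ Fin m) : ((gR i : Rg m k) : MvPowerSeries (Var m) k) =
    monomial (gen m i) 1 := rfl

theorem degree_gen_le (i : Fin 5 ⊕ Fin m) : (gen m i).degree ≤ 3 := by
  rcases i with i | i
  · fin_cases i <;> simp [gen, map_add, Finsupp.degree_single]
  · simp [gen, Finsupp.degree_single]

theorem gen_ne_zero (i : Fin 5 ⊕ Fin m) : gen m i ≠ 0 := by
  intro h
  have h2 : (gen m i).degree = 0 := by rw [h]; simp
  rcases i with i | i
  · fin_cases i <;> simp [gen, map_add, Finsupp.degree_single] at h2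
  · simp [gen, Finsupp.degree_single] at h2

theorem exists_sum_gR (f : Rg m k) (hf : constantCoeff (f : MvPowerSeries (Var m) k) = 0) :
    ∃ q : Fin 5 ⊕ Fin m → Rg m k, f = ∑ i, gR i * q i ∧
      ∀ i n, coeff n (q i : MvPowerSeries (Var m) k) ≠ 0 →
        coeff (n + gen m i) (f : MvPowerSeries (Var m) k) ≠ 0 := by
  classical
  have hex : ∀ n : Var m →₀ ℕ, ∃ i, coeff n (f : MvPowerSeries (Var m) k) ≠ 0 → gen m i ≤ n := by
    intro n
    by_cases h : coeff n (f : MvPowerSeries (Var m) k) = 0
    · exact ⟨Sum.inl 0, fun h2 => absurd h h2⟩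
    · have hn : n ≠ 0 := by
        rintro rfl
        apply h
        rw [coeff_zero_eq_constantCoeff_apply, hf]
      have hw : Wt m n = 0 := by
        by_contra hw
        exact h (f.2 n hw)
      obtain ⟨i, hi⟩ := exists_gen_le m n hn hw
      exact ⟨i, fun _ => hi⟩
  choose c hc using hex
  have hq : ∀ i, quo (gen m i) (fun n => c n = i) (f : MvPowerSeries (Var m) k) ∈
      wt (Wt m) k 0 := by
    intro i
    apply quo_mem
    rw [Wt_gen, add_zero]
    exact f.2
  refine ⟨fun i => ⟨_, hq i⟩, ?_, ?_⟩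
  · apply Subtype.ext
    have h1 := eq_sum_quo (gen m) c (f : MvPowerSeries (Var m) k) hc
    refine h1.trans ?_
    exact (map_sum (inc (Wt m) k) (fun i => gR i * (⟨_, hq i⟩ : Rg m k)) Finset.univ).symm
  · intro i n hn
    change coeff n (quo (gen m i) (fun n => c n = i) (f : MvPowerSeries (Var m) k)) ≠ 0 at hn
    rw [coeff_quo] at hn
    intro h
    apply hn
    rw [h]
    simp

theorem maximalIdeal_eq : maximalIdeal (Rg m k) = Ideal.span (Set.range gR) := by
  apply le_antisymm
  · intro f hf
    rw [mem_maximalIdeal_R0] at hf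
    obtain ⟨q, hq, -⟩ := exists_sum_gR f hf
    rw [hq]
    exact Ideal.sum_mem _ fun i _ => Ideal.mul_mem_right _ _ (Ideal.subset_span ⟨i, rfl⟩)
  · rw [Ideal.span_le]
    rintro _ ⟨i, rfl⟩
    change _ ∈ maximalIdeal (Rg m k)
    rw [mem_maximalIdeal_R0, gR_val, ← coeff_zero_eq_constantCoeff_apply]
    classical
    rw [coeff_monomial, if_neg]
    exact fun h => gen_ne_zero i h.symm

theorem mem_pow_of_order (j : ℕ) (f : Rg m k)
    (hf : ∀ n : Var m →₀ ℕ, n.degree < 3 * j → coeff n (f : MvPowerSeries (Var m) k) = 0) :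
    f ∈ maximalIdeal (Rg m k) ^ j := by
  induction j generalizing f with
  | zero => simp
  | succ j ih =>
    have h0 : constantCoeff (f : MvPowerSeries (Var m) k) = 0 := by
      rw [← coeff_zero_eq_constantCoeff_apply]
      exact hf 0 (by simp)
    obtain ⟨q, hq, hq2⟩ := exists_sum_gR f h0
    rw [hq, pow_succ']
    refine Ideal.sum_mem _ fun i _ => Ideal.mul_mem_mul ?_ (ih _ ?_)
    · rw [maximalIdeal_eq]
      exact Ideal.subset_span ⟨i, rfl⟩
    · intro n hn
      by_contra hc
      apply hq2 i n hc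
      apply hf
      rw [map_add]
      have := degree_gen_le (m := m) i
      omega

theorem coeff_eq_zero_of_mem_pow {j : ℕ} {f : Rg m k} (hf : f ∈ maximalIdeal (Rg m k) ^ j)
    (n : Var m →₀ ℕ) (hn : n.degree < j) : coeff n (f : MvPowerSeries (Var m) k) = 0 := by
  have h1 : inc (Wt m) k f ∈ CN.varIdeal (Var m) k ^ j := by
    have h2 : (maximalIdeal (Rg m k)).map (inc (Wt m) k) ≤ CN.varIdeal (Var m) k := by
      rw [Ideal.map_le_iff_le_comap]
      intro x hx
      rw [Ideal.mem_comap, ← CN.maximalIdeal_mvPowerSeries, mem_maximalIdeal, mem_nonunits_iff,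
        MvPowerSeries.isUnit_iff_constantCoeff]
      rw [mem_maximalIdeal_R0] at hx
      change ¬ IsUnit (constantCoeff (x : MvPowerSeries (Var m) k))
      rw [hx]
      exact not_isUnit_zero
    have h3 := Ideal.mem_map_of_mem (inc (Wt m) k) hf
    rw [Ideal.map_pow] at h3
    exact Ideal.pow_right_mono h2 j h3
  exact (CN.mem_varIdeal_pow_iff j _).mp h1 n hn

instance isAdicComplete_Rg : IsAdicComplete (maximalIdeal (Rg m k)) (Rg m k) where
  toIsHausdorff := inferInstance
  toIsPrecomplete := by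
    refine ⟨fun f hf => ?_⟩
    have hf2 : ∀ a b, a ≤ b → f a - f b ∈ maximalIdeal (Rg m k) ^ a := by
      intro a b hab
      have h := hf hab
      rw [SModEq.sub_mem] at h
      simpa using h
    have hst : ∀ (n : Var m →₀ ℕ) (a b : ℕ), n.degree < a → a ≤ b →
        coeff n (f a : MvPowerSeries (Var m) k) = coeff n (f b : MvPowerSeries (Var m) k) := by
      intro n a b ha hab
      have h := coeff_eq_zero_of_mem_pow (hf2 a b hab) n ha
      have h2 : ((f a - f b : Rg m k) : MvPowerSeries (Var m) k) =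
        (f a : MvPowerSeries (Var m) k) - (f b : MvPowerSeries (Var m) k) := rfl
      rw [h2, map_sub, sub_eq_zero] at h
      exact h
    let L : MvPowerSeries (Var m) k := fun n => coeff n (f (n.degree + 1) : MvPowerSeries (Var m) k)
    have hL : ∀ n, coeff n L = coeff n (f (n.degree + 1) : MvPowerSeries (Var m) k) := fun n => rfl
    have hLm : L ∈ wt (Wt m) k 0 := by
      intro n hn
      rw [hL]
      exact (f (n.degree + 1)).2 n hn
    refine ⟨⟨L, hLm⟩, fun N => ?_⟩
    rw [SModEq.sub_mem]
    have h1 : f N - f (3 * N) ∈ maximalIdeal (Rg m k) ^ N := hf2 N (3 * N) (by omega)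
    have h2 : f (3 * N) - ⟨L, hLm⟩ ∈ maximalIdeal (Rg m k) ^ N := by
      apply mem_pow_of_order
      intro n hn
      have h3 : ((f (3 * N) - ⟨L, hLm⟩ : Rg m k) : MvPowerSeries (Var m) k) =
        (f (3 * N) : MvPowerSeries (Var m) k) - L := rfl
      rw [h3, map_sub, hL, sub_eq_zero]
      exact (hst n _ _ (by omega) (by omega)).symm
    have h3 : f N - ⟨L, hLm⟩ = (f N - f (3 * N)) + (f (3 * N) - ⟨L, hLm⟩) := by ring
    rw [h3]
    have h4 := Ideal.add_mem _ h1 h2
    simpa using h4

end Pool.Agent.Ex26
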