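import Pool.Agent.Lib_helper26.Ex.Canon
import Pool.Agent.Lib_helper22.CN.Normal

/-!
The example ring is normal of characteristic `p`.
-/

namespace Pool.Agent.Ex26

open MvPowerSeries IsLocalRing

universe u

theorem isIntegrallyClosed_Rg (m : ℕ) (k : Type*) [Field k] [Infinite k] :
    IsIntegrallyClosed (Rg m k) :=
  isIntegrallyClosed_R0 (Wt m) (CN.isIntegrallyClosed_PS (Var m) k)

theorem charP_Rg (m : ℕ) (k : Type*) [Field k] (p : ℕ) [CharP k p] : CharP (Rg m k) p :=
  charP_of_injective_algebraMap (algebraMap k (Rg m k)).injective p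

/-- everything except F-finiteness and the splittings -/
theorem admissible_Rg (m : ℕ) (k : Type u) [Field k] [Infinite k] (p : ℕ) [hp : Fact p.Prime]
    [CharP k p] [CharP (Rg m k) p] (hfin : (frobenius (Rg m k) p).Finite)
    (hpure : WFT.FrobSplits (Rg m k) p 1) : WFT.Admissible (Rg m k) p (m + 3) where
  domain := inferInstance
  noetherian := inferInstance
  isLocal := inferInstance
  normal := isIntegrallyClosed_Rg m k
  prime := hp.out
  char := charP_Rg m k p
  ffinite := hfin
  fpure := hpure
  dim := ringKrullDim_Rg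
  nonQGorenstein := nonQGorenstein_Rg

end Pool.Agent.Ex26
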