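import Mathlib

/-!
Power series of a given weight, and the ring of power series of weight zero.
-/

namespace Pool.Agent.Ex26

open MvPowerSeries

section

/-- power series all of whose monomials have weight `w` -/
def wt {σ : Type*} (W : (σ →₀ ℕ) →+ ℤ) (k : Type*) [CommRing k] (w : ℤ) :
    Submodule k (MvPowerSeries σ k) where
  carrier := {f | ∀ n, W n ≠ w → coeff n f = 0}
  zero_mem' := by intro n _; simp
  add_mem' := by
    intro f g hf hg n hn
    rw [map_add, hf n hn, hg n hn, add_zero]
  smul_mem' := by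
    intro c f hf n hn
    rw [map_smul, hf n hn, smul_zero]

variable {σ : Type*} {k : Type*} [CommRing k] {W : (σ →₀ ℕ) →+ ℤ}

theorem mem_wt {w : ℤ} {f : MvPowerSeries σ k} : f ∈ wt W k w ↔ ∀ n, W n ≠ w → coeff n f = 0 :=
  Iff.rfl

theorem mul_mem_wt {a b : ℤ} {f g : MvPowerSeries σ k} (hf : f ∈ wt W k a) (hg : g ∈ wt W k b) :
    f * g ∈ wt W k (a + b) := by
  classical
  intro n hn
  rw [coeff_mul]
  refine Finset.sum_eq_zero fun x hx => ?_
  rw [Finset.HasAntidiagonal.mem_antidiagonal] at hx
  by_cases h1 : W x.1 = a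
  · have h2 : W x.2 ≠ b := by
      intro h2
      apply hn
      rw [← hx, map_add, h1, h2]
    rw [hg _ h2, mul_zero]
  · rw [hf _ h1, zero_mul]

theorem monomial_mem_wt (n : σ →₀ ℕ) (c : k) : monomial n c ∈ wt W k (W n) := by
  classical
  intro m hm
  rw [coeff_monomial, if_neg]
  rintro rfl
  exact hm rfl

theorem one_mem_wt : (1 : MvPowerSeries σ k) ∈ wt W k 0 := by
  have h := monomial_mem_wt (W := W) (0 : σ →₀ ℕ) (1 : k)
  rw [map_zero] at h
  exact h

/-- the ring of power series of weight zero -/
def R0 {σ : Type*} (W : (σ →₀ ℕ) →+ ℤ) (k : Type*) [CommRing k] :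
    Subalgebra k (MvPowerSeries σ k) where
  carrier := {f | f ∈ wt W k 0}
  mul_mem' := by
    intro f g hf hg
    have := mul_mem_wt hf hg
    rwa [add_zero] at this
  one_mem' := one_mem_wt
  add_mem' := fun hf hg => (wt W k 0).add_mem hf hg
  zero_mem' := (wt W k 0).zero_mem
  algebraMap_mem' := by
    intro c
    have : algebraMap k (MvPowerSeries σ k) c = c • (1 : MvPowerSeries σ k) :=
      Algebra.algebraMap_eq_smul_one c
    change algebraMap k (MvPowerSeries σ k) c ∈ wt W k 0
    rw [this]
    exact Submodule.smul_mem _ _ one_mem_wt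

theorem mem_R0 {f : MvPowerSeries σ k} : f ∈ R0 W k ↔ f ∈ wt W k 0 := Iff.rfl

open Classical in
variable (W) in
/-- the component of weight `w` -/
noncomputable def proj (w : ℤ) : MvPowerSeries σ k →ₗ[k] MvPowerSeries σ k where
  toFun f := fun n => if W n = w then coeff n f else 0
  map_add' f g := by
    funext n
    change (if W n = w then coeff n (f + g) else 0) =
      (if W n = w then coeff n f else 0) + (if W n = w then coeff n g else 0)
    split_ifs <;> simp
  map_smul' c f := by
    funext n
    change (if W n = w then coeff n (c • f) else 0) = c • (if W n = w then coeff n f else 0)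
    split_ifs <;> simp

open Classical in
theorem coeff_proj (w : ℤ) (f : MvPowerSeries σ k) (n : σ →₀ ℕ) :
    coeff n (proj W w f) = if W n = w then coeff n f else 0 := rfl

theorem proj_mem (w : ℤ) (f : MvPowerSeries σ k) : proj W w f ∈ wt W k w := by
  classical
  intro n hn
  rw [coeff_proj, if_neg hn]

theorem proj_eq_self {w : ℤ} {f : MvPowerSeries σ k} (hf : f ∈ wt W k w) : proj W w f = f := by
  classical
  ext n
  rw [coeff_proj]
  split_ifs with h
  · rfl
  · exact (hf n h).symm

theorem proj_mul {a w : ℤ} {f g : MvPowerSeries σ k} (hf : f ∈ wt W k a) :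
    proj W (a + w) (f * g) = f * proj W w g := by
  classical
  ext n
  rw [coeff_proj, coeff_mul, coeff_mul]
  split_ifs with h
  · refine Finset.sum_congr rfl fun x hx => ?_
    rw [Finset.HasAntidiagonal.mem_antidiagonal] at hx
    rw [coeff_proj]
    by_cases h1 : W x.1 = a
    · rw [if_pos]
      have : W x.1 + W x.2 = a + w := by rw [← map_add, hx, h]
      rw [h1] at this
      exact add_left_cancel this
    · rw [hf _ h1, zero_mul, zero_mul]
  · symm
    refine Finset.sum_eq_zero fun x hx => ?_
    rw [Finset.HasAntidiagonal.mem_antidiagonal] at hx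
    rw [coeff_proj]
    by_cases h1 : W x.1 = a
    · rw [if_neg, mul_zero]
      intro h2
      apply h
      rw [← hx, map_add, h1, h2]
    · rw [hf _ h1, zero_mul]

theorem proj_mul_zero {w : ℤ} {f g : MvPowerSeries σ k} (hf : f ∈ wt W k 0) :
    proj W w (f * g) = f * proj W w g := by
  have := proj_mul (w := w) (g := g) hf
  rwa [zero_add] at this

/-- cancellation: the quotient of two homogeneous elements is homogeneous -/
theorem mem_wt_of_mul [NoZeroDivisors k] {a w : ℤ} {f g : MvPowerSeries σ k} (hf : f ∈ wt W k a)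
    (hf0 : f ≠ 0) (hfg : f * g ∈ wt W k (a + w)) : g ∈ wt W k w := by
  have h1 := proj_mul (w := w) (g := g) hf
  rw [proj_eq_self hfg] at h1
  have h2 : g = proj W w g := mul_left_cancel₀ hf0 h1
  rw [h2]
  exact proj_mem w g

end

section field
variable {σ : Type*} {k : Type*} [Field k] (W : (σ →₀ ℕ) →+ ℤ)

/-- the inclusion -/
noncomputable def inc {σ : Type*} (W : (σ →₀ ℕ) →+ ℤ) (k : Type*) [CommRing k] :
    R0 W k →+* MvPowerSeries σ k := (R0 W k).val.toRingHom

theorem comap_map_R0 (I : Ideal (R0 W k)) : (I.map (inc W k)).comap (inc W k) = I := by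
  refine le_antisymm ?_ Ideal.le_comap_map
  intro f hf
  rw [Ideal.mem_comap] at hf
  -- for every g in the extended ideal, the weight 0 part of r g is in I
  have key : ∀ g ∈ I.map (inc W k), ∀ r : MvPowerSeries σ k,
      (⟨proj W 0 (r * g), proj_mem 0 _⟩ : R0 W k) ∈ I := by
    intro g hg
    refine Submodule.span_induction (p := fun g _ => ∀ r : MvPowerSeries σ k,
      (⟨proj W 0 (r * g), proj_mem 0 _⟩ : R0 W k) ∈ I) ?_ ?_ ?_ ?_ hg
    · rintro _ ⟨x, hx, rfl⟩ r
      have h1 : (⟨proj W 0 (r * (inc W k) x), proj_mem 0 _⟩ : R0 W k) =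
          x * ⟨proj W 0 r, proj_mem 0 _⟩ := by
        apply Subtype.ext
        change proj W 0 (r * (x : MvPowerSeries σ k)) = (x : MvPowerSeries σ k) * proj W 0 r
        rw [mul_comm, proj_mul_zero x.2]
      rw [h1]
      exact I.mul_mem_right _ hx
    · intro r
      have : (⟨proj W 0 (r * 0), proj_mem 0 _⟩ : R0 W k) = 0 := by
        apply Subtype.ext
        change proj W 0 (r * 0) = 0
        rw [mul_zero, map_zero]
      rw [this]
      exact I.zero_mem
    · intro x y _ _ hx hy r
      have : (⟨proj W 0 (r * (x + y)), proj_mem 0 _⟩ : R0 W k) =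
          ⟨proj W 0 (r * x), proj_mem 0 _⟩ + ⟨proj W 0 (r * y), proj_mem 0 _⟩ := by
        apply Subtype.ext
        change proj W 0 (r * (x + y)) = proj W 0 (r * x) + proj W 0 (r * y)
        rw [mul_add, map_add]
      rw [this]
      exact I.add_mem (hx r) (hy r)
    · intro a x _ hx r
      have := hx (r * a)
      rw [mul_assoc] at this
      exact this
  have h2 := key _ hf 1
  have h3 : (⟨proj W 0 (1 * (inc W k) f), proj_mem 0 _⟩ : R0 W k) = f := by
    apply Subtype.ext
    change proj W 0 (1 * (f : MvPowerSeries σ k)) = f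
    rw [one_mul, proj_eq_self f.2]
  rwa [h3] at h2

instance isNoetherianRing_R0 [Finite σ] : IsNoetherianRing (R0 W k) := by
  have hS : IsNoetherianRing (MvPowerSeries σ k) := inferInstance
  rw [isNoetherianRing_iff, isNoetherian_iff'] at hS ⊢
  have hmono : StrictMono (fun I : Ideal (R0 W k) => I.map (inc W k)) := by
    refine Monotone.strictMono_of_injective (fun I J h => Ideal.map_mono h) ?_
    intro I J h
    have := congrArg (Ideal.comap (inc W k)) h
    rwa [comap_map_R0, comap_map_R0] at this
  exact hmono.wellFoundedGT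

theorem isUnit_R0 (f : R0 W k) (hf : IsUnit (f : MvPowerSeries σ k)) : IsUnit f := by
  obtain ⟨g, hg⟩ := hf.exists_right_inv
  have h1 : (f : MvPowerSeries σ k) * proj W 0 g = 1 := by
    rw [← proj_mul_zero f.2, hg, proj_eq_self one_mem_wt]
  refine IsUnit.of_mul_eq_one (⟨proj W 0 g, proj_mem 0 _⟩ : R0 W k) ?_
  exact Subtype.ext h1

instance isLocalHom_R0 : IsLocalHom (inc W k) := ⟨fun f hf => isUnit_R0 W f hf⟩

instance isLocalRing_R0 : IsLocalRing (R0 W k) := by
  exact RingHom.domain_isLocalRing (inc W k)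

theorem mem_maximalIdeal_R0 (f : R0 W k) :
    f ∈ IsLocalRing.maximalIdeal (R0 W k) ↔ constantCoeff (f : MvPowerSeries σ k) = 0 := by
  rw [IsLocalRing.mem_maximalIdeal, mem_nonunits_iff]
  constructor
  · intro h
    by_contra hc
    apply h
    apply isUnit_R0
    rw [MvPowerSeries.isUnit_iff_constantCoeff]
    exact isUnit_iff_ne_zero.mpr hc
  · intro h hu
    have h1 := hu.map (inc W k)
    have h2 : IsUnit (f : MvPowerSeries σ k) := h1
    rw [MvPowerSeries.isUnit_iff_constantCoeff, h] at h2
    exact not_isUnit_zero h2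

instance isDomain_R0 : IsDomain (R0 W k) := by
  have : IsDomain (MvPowerSeries σ k) := NoZeroDivisors.to_isDomain _
  infer_instance

/-- the ring of series of weight zero is integrally closed if the power series ring is -/
theorem isIntegrallyClosed_R0 (hS : IsIntegrallyClosed (MvPowerSeries σ k)) :
    IsIntegrallyClosed (R0 W k) := by
  have hdom : IsDomain (MvPowerSeries σ k) := NoZeroDivisors.to_isDomain _
  rw [isIntegrallyClosed_iff (FractionRing (R0 W k))]
  intro x hx
  obtain ⟨a, b, hb, rfl⟩ := IsFractionRing.div_surjective (A := R0 W k) x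
  have hb0 : b ≠ 0 := nonZeroDivisors.ne_zero hb
  have hinj : Function.Injective (inc W k) :=
    Subtype.val_injective
  let L := FractionRing (MvPowerSeries σ k)
  have hinj2 : Function.Injective ((algebraMap (MvPowerSeries σ k) L).comp
      (inc W k)) :=
    (IsFractionRing.injective (MvPowerSeries σ k) L).comp hinj
  let Φ : FractionRing (R0 W k) →+* L := IsFractionRing.lift hinj2
  have hΦ : ∀ r : R0 W k, Φ (algebraMap _ _ r) = algebraMap (MvPowerSeries σ k) L r := fun r =>
    IsFractionRing.lift_algebraMap hinj2 r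
  have hint : IsIntegral (MvPowerSeries σ k) (Φ (algebraMap _ _ a / algebraMap _ _ b)) := by
    obtain ⟨P, hP, hPx⟩ := hx
    refine ⟨P.map (inc W k), hP.map _, ?_⟩
    rw [Polynomial.eval₂_map]
    have : (algebraMap (MvPowerSeries σ k) L).comp
      (inc W k) = Φ.comp (algebraMap _ _) := by
      ext r
      exact (hΦ r).symm
    rw [this, ← Polynomial.hom_eval₂, hPx, map_zero]
  obtain ⟨s, hs⟩ := (isIntegrallyClosed_iff L).mp hS hint
  rw [map_div₀, hΦ, hΦ] at hs
  have hbL : algebraMap (MvPowerSeries σ k) L b ≠ 0 := by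
    intro h
    apply hb0
    apply hinj
    rw [map_zero]
    exact (injective_iff_map_eq_zero _).mp (IsFractionRing.injective (MvPowerSeries σ k) L) _ h
  rw [eq_div_iff hbL, ← map_mul] at hs
  have hs2 : s * (b : MvPowerSeries σ k) = a := IsFractionRing.injective (MvPowerSeries σ k) L hs
  have hs0 : s ∈ wt W k 0 := by
    refine mem_wt_of_mul (a := 0) b.2 (fun h => hb0 (Subtype.ext h)) ?_
    rw [mul_comm, hs2, add_zero]
    exact a.2
  refine ⟨⟨s, hs0⟩, ?_⟩
  have hbK : algebraMap (R0 W k) (FractionRing (R0 W k)) b ≠ 0 := by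
    intro h
    apply hb0
    exact (injective_iff_map_eq_zero _).mp (IsFractionRing.injective (R0 W k) _) _ h
  rw [eq_div_iff hbK, ← map_mul]
  congr 1
  exact Subtype.ext hs2

end field

end Pool.Agent.Ex26
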